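import Pool.Agent.Lib.MP_506ba8_co.H4.Level0

/-!
# Additive functions and a bounded number of arbitrary Lipschitz functions
-/

set_option autoImplicit false

open Finset

set_option linter.unusedSectionVars false
set_option linter.style.longLine false
set_option linter.unusedVariables false

namespace Pool.Agent.Lib.MP_506ba8_co.H4

open Pool.Agent.Lib.MP_506ba8_co (H52.nk)
open Pool.Agent.Lib.MP_506ba8_co.H52 (nk_neg abs_nk_le frac_card continuousOn_nk)

/-- Borsuk–Ulam. -/
theorem bu {d : ℕ} (F : Fin d → (Fin (d + 1) → ℝ) → ℝ)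
    (hc : ∀ i, ContinuousOn (F i) {x | ‖x‖ = 1})
    (hodd : ∀ i x, ‖x‖ = 1 → F i (-x) = - F i x) : ∃ x, ‖x‖ = 1 ∧ ∀ i, F i x = 0 := by
  by_contra hcon
  push Not at hcon
  have hcomp : IsCompact {x : Fin (d + 1) → ℝ | ‖x‖ = 1} := by
    have := isCompact_sphere (0 : Fin (d + 1) → ℝ) 1
    simpa [Metric.sphere, dist_zero_right] using this
  have hne : ({x : Fin (d + 1) → ℝ | ‖x‖ = 1}).Nonempty := by
    refine ⟨fun _ => 1, ?_⟩
    simp only [Set.mem_ofPred_eq]
    rw [pi_norm_const]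
    simp
  have hG : ContinuousOn (fun x => ∑ i, |F i x|) {x : Fin (d + 1) → ℝ | ‖x‖ = 1} :=
    continuousOn_finsetSum _ fun i _ => (hc i).abs
  obtain ⟨x0, hx0, hmin⟩ := hcomp.exists_isMinOn hne hG
  have hpos : ∀ x, ‖x‖ = 1 → 0 < ∑ i, |F i x| := by
    intro x hx
    obtain ⟨i, hi⟩ := hcon x hx
    exact Finset.sum_pos' (fun i _ => abs_nonneg _) ⟨i, Finset.mem_univ i, abs_pos.2 hi⟩
  set δ : ℝ := ∑ i, |F i x0| with hδ
  have hδ0 : 0 < δ := hpos x0 hx0
  obtain ⟨x, hx, I, hI, -⟩ := H52.ls_fan (R := d + 1) (n := d) (by omega) F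
    (fun _ => δ / (d + 1)) hc hodd (fun _ => by positivity) (by
      intro x hx
      by_contra h
      push Not at h
      have h1 : δ ≤ ∑ i, |F i x| := hmin hx
      have h2 : ∑ i, |F i x| ≤ ∑ i : Fin d, δ / (d + 1) :=
        Finset.sum_le_sum fun i _ => (h i).le
      rw [Finset.sum_const, Finset.card_univ, Fintype.card_fin, nsmul_eq_mul] at h2
      have h3 : (d : ℝ) * (δ / (d + 1)) < δ := by
        rw [mul_div_assoc', div_lt_iff₀ (by positivity)]
        nlinarith
      linarith)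
  have h1 := Finset.card_le_univ I
  rw [Fintype.card_fin] at h1
  omega

/-- The core theorem: sign vectors. -/
theorem core (k : ℕ) : ∃ C : ℝ, 1 ≤ C ∧ ∀ (N m : ℕ) (L : Fin N → Fin m → ℝ)
    (g : Fin k → (Fin m → ℝ) → ℝ), (∀ i j, |L i j| ≤ 1) →
    (∀ l x y, Sgn x → Sgn y → ∀ s : Finset (Fin m), (∀ j, x j ≠ y j → j ∈ s) →
      |g l x - g l y| ≤ 2 * (s.card : ℝ)) →
    (∀ l x, Sgn x → g l (-x) = - g l x) → N + k < m →
    ∃ x, Sgn x ∧ (∀ i, |∑ j, L i j * x j| ≤ C * Real.sqrt (N + 1)) ∧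
      ∀ l, |g l x| ^ 3 ≤ C * (N + 1) := by
  classical
  obtain ⟨C0, hC0, hit⟩ := good_iter k
  set K : ℝ := 1 + k + 2 ^ (2 ^ (k + 1)) with hK
  have hK1 : 1 ≤ K := by
    have h1 : (0 : ℝ) ≤ k := Nat.cast_nonneg k
    have h2 : (0 : ℝ) ≤ 2 ^ (2 ^ (k + 1)) := by positivity
    rw [hK]
    linarith
  refine ⟨(401 + 8 * C0) * K, by nlinarith, ?_⟩
  intro N m L g hL hg hodd hRm
  set n : ℕ := N + k + 2 ^ (2 ^ (k + 1)) with hn
  have hnK : (n : ℝ) ≤ K * (N + 1) := by
    rw [hn, hK]
    push_cast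
    have h0 : (0 : ℝ) ≤ N := Nat.cast_nonneg N
    have h1 : (0 : ℝ) ≤ k := Nat.cast_nonneg k
    have h2 : (0 : ℝ) ≤ 2 ^ (2 ^ (k + 1)) := by positivity
    nlinarith [mul_nonneg h0 h1, mul_nonneg h0 h2]
  have h2p : 1 ≤ 2 ^ (2 ^ (k + 1)) := Nat.one_le_two_pow
  obtain ⟨a, ha, hgood⟩ := good_init (m := m) (N := N) (k := k) (n := n) L hL hRm (by omega)
  obtain ⟨D, hD0, hD3, α, iα, ⟨T⟩⟩ := hit (Fin N) m (N + k) n (N + k) L _ _ hL hgood hRm
    (by omega) (by omega) (by rw [Fintype.card_fin]; omega)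
  -- the Borsuk–Ulam functions
  set F : Fin (N + k) → (Fin (N + k + 1) → ℝ) → ℝ := Fin.addCases
    (fun i w => ∑ x, mu x (H52.nk m w) * a x i) (fun l w => ∑ v, T.lam v w * g l (T.x v)) with hF
  have hF1 : ∀ i : Fin N, F (Fin.castAdd k i) = fun w => ∑ x, mu x (H52.nk m w) * a x i := by
    intro i
    rw [hF]
    simp only
    rw [Fin.addCases_left]
  have hF2 : ∀ l : Fin k, F (Fin.natAdd N l) = fun w => ∑ v, T.lam v w * g l (T.x v) := by
    intro i
    rw [hF]
    simp only
    rw [Fin.addCases_right]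
  obtain ⟨w, hw, hw0⟩ := bu F (by
    intro i
    refine Fin.addCases (fun i => ?_) (fun l => ?_) i
    · rw [hF1]
      exact continuousOn_finsetSum _ fun x _ =>
        ((mu_cont x).comp_continuousOn continuousOn_nk).mul continuousOn_const
    · rw [hF2]
      exact continuousOn_finsetSum _ fun v _ => (T.cont v).mul continuousOn_const) (by
    intro i w hw
    revert i
    intro i
    refine Fin.addCases (fun i => ?_) (fun l => ?_) i
    · rw [hF1]
      simp only
      have e1 : H52.nk m (-w) = - H52.nk m w := by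
        funext j
        exact nk_neg w j
      rw [e1, ← Finset.sum_neg_distrib]
      refine Finset.sum_bij' (fun x _ => cp x) (fun x _ => cp x) (fun x _ => Finset.mem_univ _)
        (fun x _ => Finset.mem_univ _) (fun x _ => cp_cp x) (fun x _ => cp_cp x) ?_
      intro x _
      have e2 := mu_odd (cp x) (H52.nk m w)
      rw [cp_cp] at e2
      rw [e2, ha x, Pi.neg_apply]
      ring
    · rw [hF2]
      simp only
      rw [← Finset.sum_neg_distrib]
      refine Finset.sum_bij' (fun v _ => T.inv v) (fun v _ => T.inv v)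
        (fun x _ => Finset.mem_univ _)
        (fun x _ => Finset.mem_univ _) (fun x _ => T.inv_inv x) (fun x _ => T.inv_inv x) ?_
      intro v _
      have hw' : ‖-w‖ = 1 := by rw [norm_neg]; exact hw
      have e2 := T.odd v (-w) hw'
      rw [neg_neg] at e2
      rcases (T.nonneg (T.inv v) w hw).lt_or_eq with h | h
      · have e3 := T.xinv (T.inv v) w hw h
        rw [T.inv_inv] at e3
        have e4 := hodd l (T.x (T.inv v)) (T.sgn _ w hw h)
        rw [← e2, e3, e4]
        ring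
      · rw [← e2, ← h]
        ring)
  have hwZ : w ∈ {w : Fin (N + k + 1) → ℝ | ∀ i, ∑ x, mu x (H52.nk m w) * a x i = 0} := by
    intro i
    have := hw0 (Fin.castAdd k i)
    rw [hF1] at this
    exact this
  obtain ⟨v0, hv0⟩ := T.ne w hwZ hw
  have hv0' := mem_spt.1 hv0
  have hnn : (0 : ℝ) ≤ n := Nat.cast_nonneg n
  have hn1 : (1 : ℝ) ≤ n := by
    have : 1 ≤ n := by omega
    exact_mod_cast this
  have hsn1 : 1 ≤ Real.sqrt n := by
    rw [Real.one_le_sqrt]
    exact hn1
  have hsn : Real.sqrt n ≤ K * Real.sqrt (N + 1) := by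
    calc Real.sqrt n ≤ Real.sqrt (K * (N + 1)) := Real.sqrt_le_sqrt hnK
      _ = Real.sqrt K * Real.sqrt (N + 1) := Real.sqrt_mul (by linarith) _
      _ ≤ K * Real.sqrt (N + 1) := by
          refine mul_le_mul_of_nonneg_right ?_ (Real.sqrt_nonneg _)
          rw [Real.sqrt_le_left (by linarith)]
          nlinarith
  refine ⟨T.x v0, T.sgn v0 w hw hv0', fun i => ?_, fun l => ?_⟩
  · have h1 := T.lin v0 w hw hv0' i
    have h2 : (0 : ℝ) ≤ C0 * Real.sqrt n := by positivity
    calc |∑ j, L i j * T.x v0 j| ≤ 1 + 400 * Real.sqrt n + C0 * Real.sqrt n := h1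
      _ ≤ (401 + 8 * C0) * Real.sqrt n := by nlinarith
      _ ≤ (401 + 8 * C0) * (K * Real.sqrt (N + 1)) :=
          mul_le_mul_of_nonneg_left hsn (by linarith)
      _ = (401 + 8 * C0) * K * Real.sqrt (N + 1) := by ring
  · have h0 : ∑ v, T.lam v w * g l (T.x v) = 0 := by
      have := hw0 (Fin.natAdd N l)
      rw [hF2] at this
      exact this
    have hdiff : ∀ v, |T.lam v w * g l (T.x v) - T.lam v w * g l (T.x v0)| ≤
        T.lam v w * (2 * D) := by
      intro v
      rw [← mul_sub, abs_mul, abs_of_nonneg (T.nonneg v w hw)]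
      rcases (T.nonneg v w hw).lt_or_eq with h | h
      · refine mul_le_mul_of_nonneg_left ?_ h.le
        have h1 := hg l (T.x v) (T.x v0) (T.sgn _ w hw h) (T.sgn _ w hw hv0')
          (box T.x (spt T.lam w)) (fun j hj => mem_box.2 ⟨v, mem_spt.2 h, v0, hv0, hj⟩)
        have h2 := T.bx w hw
        linarith
      · rw [← h]
        simp
    have hsum : |∑ v, (T.lam v w * g l (T.x v) - T.lam v w * g l (T.x v0))| ≤
        ∑ v, T.lam v w * (2 * D) :=
      (Finset.abs_sum_le_sum_abs _ _).trans (Finset.sum_le_sum fun v _ => hdiff v)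
    rw [Finset.sum_sub_distrib, h0, zero_sub, abs_neg, ← Finset.sum_mul, ← Finset.sum_mul,
      abs_mul] at hsum
    have hS : 0 < ∑ v, T.lam v w :=
      Finset.sum_pos' (fun v _ => T.nonneg v w hw) ⟨v0, Finset.mem_univ _, hv0'⟩
    rw [abs_of_pos hS] at hsum
    have h3 : |g l (T.x v0)| ≤ 2 * D := le_of_mul_le_mul_left hsum hS
    calc |g l (T.x v0)| ^ 3 ≤ (2 * D) ^ 3 := pow_le_pow_left₀ (abs_nonneg _) h3 3
      _ = 8 * D ^ 3 := by ring
      _ ≤ 8 * (C0 * n) := by linarith
      _ ≤ (401 + 8 * C0) * n := by nlinarith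
      _ ≤ (401 + 8 * C0) * (K * (N + 1)) := mul_le_mul_of_nonneg_left hnK (by linarith)
      _ = (401 + 8 * C0) * K * (N + 1) := by ring

/-! ### Set functions -/

lemma lip_symm {m : ℕ} {h : Finset (Fin m) → ℝ}
    (hh : ∀ (S : Finset (Fin m)) (x : Fin m), |h (insert x S) - h (S.erase x)| ≤ 1)
    (U S : Finset (Fin m)) : |h (symmDiff S U) - h S| ≤ (U.card : ℝ) := by
  classical
  have hone : ∀ (S : Finset (Fin m)) (x : Fin m), |h (symmDiff S {x}) - h S| ≤ 1 := by
    intro S x
    have h1 := hh S x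
    by_cases hx : x ∈ S
    · have e1 : symmDiff S {x} = S.erase x := by
        ext y
        simp only [Finset.mem_symmDiff, Finset.mem_singleton, Finset.mem_erase]
        constructor
        · rintro (⟨h1, h2⟩ | ⟨h1, h2⟩)
          · exact ⟨h2, h1⟩
          · exact absurd (h1 ▸ hx) h2
        · rintro ⟨h1, h2⟩
          exact Or.inl ⟨h2, h1⟩
      rw [Finset.insert_eq_of_mem hx] at h1
      rw [e1, abs_sub_comm]
      exact h1
    · have e1 : symmDiff S {x} = insert x S := by
        ext y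
        simp only [Finset.mem_symmDiff, Finset.mem_singleton, Finset.mem_insert]
        constructor
        · rintro (⟨h1, h2⟩ | ⟨h1, h2⟩)
          · exact Or.inr h1
          · exact Or.inl h1
        · rintro (h1 | h1)
          · exact Or.inr ⟨h1, h1 ▸ hx⟩
          · exact Or.inl ⟨h1, fun h2 => hx (h2 ▸ h1)⟩
      rw [Finset.erase_eq_of_notMem hx] at h1
      rw [e1]
      exact h1
  induction U using Finset.induction_on with
  | empty =>
    have e0 : symmDiff S ∅ = S := symmDiff_bot S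
    rw [e0]
    simp
  | insert x U hx ih =>
    have e1 : symmDiff S (insert x U) = symmDiff (symmDiff S U) {x} := by
      rw [symmDiff_assoc]
      congr 1
      ext y
      simp only [Finset.mem_symmDiff, Finset.mem_singleton, Finset.mem_insert]
      constructor
      · rintro (h1 | h1)
        · exact Or.inr ⟨h1, h1 ▸ hx⟩
        · exact Or.inl ⟨h1, fun h2 => hx (h2 ▸ h1)⟩
      · rintro (⟨h1, h2⟩ | ⟨h1, h2⟩)
        · exact Or.inr h1
        · exact Or.inl h1
    rw [e1, Finset.card_insert_of_notMem hx]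
    push_cast
    have h1 := hone (symmDiff S U) x
    calc |h (symmDiff (symmDiff S U) {x}) - h S| =
        |(h (symmDiff (symmDiff S U) {x}) - h (symmDiff S U)) + (h (symmDiff S U) - h S)| := by
          congr 1
          ring
      _ ≤ _ := abs_add_le _ _
      _ ≤ 1 + (U.card : ℝ) := add_le_add h1 ih
      _ = (U.card : ℝ) + 1 := by ring

lemma lip_card {m : ℕ} {h : Finset (Fin m) → ℝ}
    (hh : ∀ (S : Finset (Fin m)) (x : Fin m), |h (insert x S) - h (S.erase x)| ≤ 1)
    (S T : Finset (Fin m)) : |h S - h T| ≤ ((symmDiff T S).card : ℝ) := by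
  have h1 := lip_symm hh (symmDiff T S) T
  rwa [← symmDiff_assoc, symmDiff_self, bot_symmDiff] at h1

/-- the set of a sign vector -/
noncomputable def pos {m p : ℕ} (x : Fin (m + p) → ℝ) : Finset (Fin m) := by
  classical exact Finset.univ.filter (fun j => x (Fin.castAdd p j) = 1)

lemma mem_pos {m p : ℕ} {x : Fin (m + p) → ℝ} {j : Fin m} :
    j ∈ pos x ↔ x (Fin.castAdd p j) = 1 := by
  classical
  simp [pos]

lemma pos_neg {m p : ℕ} {x : Fin (m + p) → ℝ} (hx : Sgn x) : pos (-x) = (pos x)ᶜ := by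
  ext j
  rw [Finset.mem_compl, mem_pos, mem_pos, Pi.neg_apply]
  rcases hx (Fin.castAdd p j) with h | h <;> rw [h] <;> norm_num

lemma symm_pos_subset {m p : ℕ} {x y : Fin (m + p) → ℝ} {s : Finset (Fin (m + p))}
    (hs : ∀ j, x j ≠ y j → j ∈ s) : ((symmDiff (pos y) (pos x)).card : ℝ) ≤ (s.card : ℝ) := by
  classical
  have h1 : (symmDiff (pos y) (pos x)).card ≤ s.card := by
    refine Finset.card_le_card_of_injOn (Fin.castAdd p) ?_ (Fin.castAdd_injective m p).injOn
    intro j hj
    refine hs _ ?_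
    intro hxy
    have hj' : j ∈ symmDiff (pos y) (pos x) := hj
    rw [Finset.mem_symmDiff, mem_pos, mem_pos, hxy] at hj'
    tauto
  exact_mod_cast h1

/-- **Main theorem.** -/
theorem main (k : ℕ) : ∃ C : ℝ, 1 ≤ C ∧ ∀ (n m : ℕ) (a : Fin n → Fin m → ℝ)
    (h : Fin k → Finset (Fin m) → ℝ), (∀ i g, |a i g| ≤ 1) →
    (∀ l (S : Finset (Fin m)) (x : Fin m), |h l (insert x S) - h l (S.erase x)| ≤ 1) →
    ∃ A : Finset (Fin m), (∀ i, |∑ g ∈ A, a i g - ∑ g ∈ Aᶜ, a i g| ≤ C * Real.sqrt (n + 1)) ∧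
      ∀ l, |h l A - h l Aᶜ| ^ 3 ≤ C * (n + 1) := by
  classical
  obtain ⟨C, hC, hcore⟩ := core k
  refine ⟨C, hC, ?_⟩
  intro n m a h ha hh
  obtain ⟨x, hx, h1, h2⟩ := hcore n (m + (n + k + 1))
    (fun i => Fin.addCases (fun j => a i j) (fun _ => 0))
    (fun l x => h l (pos x) - h l (pos x)ᶜ) (by
      intro i j
      refine Fin.addCases (fun j => ?_) (fun j => ?_) j
      · rw [Fin.addCases_left]
        exact ha i j
      · rw [Fin.addCases_right]
        simp) (by
      intro l x y hx hy s hs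
      have e1 := lip_card (hh l) (pos x) (pos y)
      have e2 := lip_card (hh l) (pos x)ᶜ (pos y)ᶜ
      have e3 := symm_pos_subset (m := m) (p := n + k + 1) hs
      have e4 : symmDiff (pos y)ᶜ (pos x)ᶜ = symmDiff (pos y) (pos x) := compl_symmDiff_compl _ _
      rw [e4] at e2
      calc |h l (pos x) - h l (pos x)ᶜ - (h l (pos y) - h l (pos y)ᶜ)| =
          |(h l (pos x) - h l (pos y)) - (h l (pos x)ᶜ - h l (pos y)ᶜ)| := by
            congr 1
            ring
        _ ≤ |h l (pos x) - h l (pos y)| + |h l (pos x)ᶜ - h l (pos y)ᶜ| := abs_sub _ _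
        _ ≤ 2 * (s.card : ℝ) := by linarith) (by
      intro l x hx
      rw [pos_neg hx, compl_compl]
      ring) (by omega)
  refine ⟨pos x, fun i => ?_, fun l => h2 l⟩
  have e1 : ∑ g ∈ pos x, a i g - ∑ g ∈ (pos x)ᶜ, a i g =
      ∑ j, (Fin.addCases (fun j => a i j) (fun _ => 0) : Fin (m + (n + k + 1)) → ℝ) j * x j := by
    rw [Fin.sum_univ_add]
    simp only [Fin.addCases_left, Fin.addCases_right, zero_mul, Finset.sum_const_zero, add_zero]
    rw [← Finset.sum_add_sum_compl (pos x) (fun j => a i j * x (Fin.castAdd (n + k + 1) j)),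
      sub_eq_add_neg, ← Finset.sum_neg_distrib]
    congr 1
    · refine Finset.sum_congr rfl fun j hj => ?_
      rw [mem_pos.1 hj, mul_one]
    · refine Finset.sum_congr rfl fun j hj => ?_
      rw [Finset.mem_compl, mem_pos] at hj
      rcases hx (Fin.castAdd (n + k + 1) j) with h3 | h3
      · exact absurd h3 hj
      · rw [h3]
        ring
  rw [e1]
  exact h1 i

end Pool.Agent.Lib.MP_506ba8_co.H4
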