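import Pool.Agent.Lib.MP_506ba8_co.H4.Iter
import Pool.Agent.Lib.MP_506ba8_co.H52.LsFan
import Pool.Agent.Lib.MP_506ba8_co.H52.Necklace

/-!
# The initial level
-/

set_option autoImplicit false

open Finset

set_option linter.unusedSectionVars false
set_option linter.style.longLine false
set_option linter.unusedVariables false

namespace Pool.Agent.Lib.MP_506ba8_co.H4

open Pool.Agent.Lib.MP_506ba8_co (H52.nk)

/-! ### Generic perturbation -/

lemma generic {β : Type} [DecidableEq β] {N : ℕ} (b0 : β → Fin N → ℝ) (s : Finset β) :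
    ∃ b : β → Fin N → ℝ, (∀ x, ‖b x - b0 x‖ ≤ 1) ∧ ∀ τ ⊆ s, τ.card ≤ N → ∀ ν : β → ℝ,
      (∑ x ∈ τ, ν x • b x = 0) → ∀ x ∈ τ, ν x = 0 := by
  classical
  induction s using Finset.induction_on with
  | empty =>
    refine ⟨b0, fun x => by simp, fun τ hτ _ ν _ x hx => ?_⟩
    exact absurd (hτ hx) (Finset.notMem_empty x)
  | insert x0 s hx0 ih =>
    obtain ⟨b, hb1, hb2⟩ := ih
    -- choose the new point
    obtain ⟨p, hp1, hp2⟩ : ∃ p : Fin N → ℝ, ‖p - b0 x0‖ ≤ 1 ∧ ∀ τ ∈ s.powerset, τ.card < N →
        p ∉ Submodule.span ℝ (b '' (τ : Set β)) := by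
      set I : Set (Finset β) := {τ | τ ∈ s.powerset ∧ τ.card < N} with hI
      have hIc : I.Countable := by
        refine Set.Finite.countable ((Finset.finite_toSet s.powerset).subset ?_)
        intro τ hτ
        exact hτ.1
      set bad : Set (Fin N → ℝ) := ⋃ τ ∈ I,
        (Submodule.span ℝ (b '' (τ : Set β)) : Set (Fin N → ℝ)) with hbad
      have hnull : ∀ τ ∈ I, MeasureTheory.volume
          (Submodule.span ℝ (b '' (τ : Set β)) : Set (Fin N → ℝ)) = 0 := by
        intro τ hτ
        apply MeasureTheory.Measure.addHaar_submodule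
        intro htop
        have h1 : Module.finrank ℝ (Submodule.span ℝ (b '' (τ : Set β))) ≤ τ.card := by
          have h2 := finrank_span_finset_le_card (R := ℝ) (τ.image b)
          rw [Finset.coe_image] at h2
          exact h2.trans Finset.card_image_le
        rw [htop, finrank_top, Module.finrank_fin_fun] at h1
        have h2 := hτ.2
        omega
      have h0 : MeasureTheory.volume bad = 0 :=
        (MeasureTheory.measure_biUnion_null_iff hIc).2 hnull
      have h1 : 0 < MeasureTheory.volume (Metric.closedBall (b0 x0) 1) :=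
        Metric.measure_closedBall_pos _ _ one_pos
      have h2 : ¬ Metric.closedBall (b0 x0) 1 ⊆ bad := by
        intro h3
        have := MeasureTheory.measure_mono (μ := MeasureTheory.volume) h3
        rw [h0] at this
        exact absurd h1 (not_lt.2 this)
      obtain ⟨p, hp, hp'⟩ := Set.not_subset.1 h2
      refine ⟨p, by rwa [← dist_eq_norm, ← Metric.mem_closedBall], fun τ hτ hc hmem => hp' ?_⟩
      rw [hbad]
      exact Set.mem_biUnion (show τ ∈ I from ⟨hτ, hc⟩) hmem
    refine ⟨Function.update b x0 p, fun x => ?_, fun τ hτ hc ν hν => ?_⟩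
    · by_cases h : x = x0
      · subst h
        rw [Function.update_self]
        exact hp1
      · rw [Function.update_of_ne h]
        exact hb1 x
    · have hother : ∀ τ' ⊆ τ.erase x0, ∑ x ∈ τ', ν x • Function.update b x0 p x =
          ∑ x ∈ τ', ν x • b x := by
        intro τ' hτ'
        refine Finset.sum_congr rfl fun x hx => ?_
        rw [Function.update_of_ne (Finset.ne_of_mem_erase (hτ' hx))]
      have hsub : τ.erase x0 ⊆ s := by
        intro x hx
        rcases Finset.mem_insert.1 (hτ (Finset.mem_of_mem_erase hx)) with h | h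
        · exact absurd h (Finset.ne_of_mem_erase hx)
        · exact h
      by_cases hx : x0 ∈ τ
      · rw [← Finset.add_sum_erase τ _ hx, hother _ (Finset.Subset.refl _),
          Function.update_self] at hν
        have hcard : (τ.erase x0).card < N := by
          have := Finset.card_erase_of_mem hx
          have := Finset.card_pos.2 ⟨x0, hx⟩
          omega
        have hν0 : ν x0 = 0 := by
          by_contra hne
          apply hp2 (τ.erase x0) (Finset.mem_powerset.2 hsub) hcard
          have h1 : p = ∑ x ∈ τ.erase x0, (-(ν x0)⁻¹ * ν x) • b x := by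
            have h2 : ν x0 • p = - ∑ x ∈ τ.erase x0, ν x • b x := eq_neg_of_add_eq_zero_left hν
            have h3 : p = (ν x0)⁻¹ • (ν x0 • p) := by
              rw [smul_smul, inv_mul_cancel₀ hne, one_smul]
            rw [h3, h2, smul_neg, Finset.smul_sum, ← Finset.sum_neg_distrib]
            refine Finset.sum_congr rfl fun x _ => ?_
            rw [smul_smul, neg_mul, neg_smul]
          rw [h1]
          refine Submodule.sum_mem _ fun x hx' => Submodule.smul_mem _ _ ?_
          exact Submodule.subset_span (Set.mem_image_of_mem _ hx')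
        rw [hν0, zero_smul, zero_add] at hν
        have h1 := hb2 (τ.erase x0) hsub hcard.le ν hν
        intro x hx'
        by_cases h : x = x0
        · rw [h]; exact hν0
        · exact h1 x (Finset.mem_erase.2 ⟨h, hx'⟩)
      · have h1 : τ.erase x0 = τ := Finset.erase_eq_of_notMem hx
        rw [← h1, hother _ (Finset.Subset.refl _), h1] at hν
        rw [h1] at hsub
        exact hb2 τ hsub hc ν hν

/-- complement of a sign pattern -/
def cp {m : ℕ} (x : Fin m → Bool) : Fin m → Bool := fun j => !(x j)

lemma cp_cp {m : ℕ} (x : Fin m → Bool) : cp (cp x) = x := by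
  funext j
  simp [cp]

lemma sg_not (b : Bool) : sg (!b) = - sg b := by
  cases b <;> simp [sg]

/-- odd generic perturbation of the linear map -/
lemma generic_odd {m N : ℕ} (hm : 0 < m) (L : Fin N → Fin m → ℝ) :
    ∃ a : (Fin m → Bool) → Fin N → ℝ, (∀ x, a (cp x) = - a x) ∧
      (∀ x i, |a x i - ∑ j, L i j * sg (x j)| ≤ 1) ∧
      ∀ τ : Finset (Fin m → Bool), (∀ x ∈ τ, cp x ∉ τ) → τ.card ≤ N → ∀ ν : (Fin m → Bool) → ℝ,
        (∀ i, ∑ x ∈ τ, ν x * a x i = 0) → ∀ x ∈ τ, ν x = 0 := by
  classical
  obtain ⟨b, hb1, hb2⟩ := generic (fun (x : Fin m → Bool) i => ∑ j, L i j * sg (x j))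
    (Finset.univ : Finset (Fin m → Bool))
  set j0 : Fin m := ⟨0, hm⟩ with hj0
  have hcp : ∀ x : Fin m → Bool, (cp x) j0 = !(x j0) := fun x => rfl
  set a : (Fin m → Bool) → Fin N → ℝ := fun x => if x j0 then b x else - b (cp x) with ha
  have hb1' : ∀ x i, |b x i - ∑ j, L i j * sg (x j)| ≤ 1 := by
    intro x i
    have h1 := norm_le_pi_norm (b x - (fun i => ∑ j, L i j * sg (x j))) i
    rw [Real.norm_eq_abs] at h1
    exact h1.trans (hb1 x)
  have hcpsum : ∀ x i, ∑ j, L i j * sg ((cp x) j) = - ∑ j, L i j * sg (x j) := by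
    intro x i
    rw [← Finset.sum_neg_distrib]
    refine Finset.sum_congr rfl fun j _ => ?_
    rw [cp, sg_not]
    ring
  refine ⟨a, fun x => ?_, fun x i => ?_, fun τ hτ hc ν hν => ?_⟩
  · simp only [ha, hcp, cp_cp]
    cases x j0 <;> simp
  · simp only [ha]
    split_ifs with h
    · exact hb1' x i
    · have h1 := hb1' (cp x) i
      rw [hcpsum] at h1
      rw [Pi.neg_apply]
      rw [← abs_neg]
      refine le_trans (le_of_eq ?_) h1
      congr 1
      ring
  · set rep : (Fin m → Bool) → (Fin m → Bool) := fun x => if x j0 then x else cp x with hrep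
    set ν' : (Fin m → Bool) → ℝ := fun y => if y ∈ τ then ν y else - ν (cp y) with hν'
    have hinj : ∀ x ∈ τ, ∀ y ∈ τ, rep x = rep y → x = y := by
      intro x hx y hy h
      simp only [hrep] at h
      split_ifs at h with h1 h2 h2
      · exact h
      · exfalso
        apply hτ y hy
        rw [← h]
        exact hx
      · exfalso
        apply hτ x hx
        rw [h]
        exact hy
      · rw [← cp_cp x, h, cp_cp]
    have hterm : ∀ x ∈ τ, ν' (rep x) • b (rep x) = ν x • a x := by
      intro x hx
      simp only [hrep, ha]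
      split_ifs with h
      · simp only [hν']
        rw [if_pos hx]
      · simp only [hν']
        rw [if_neg (hτ x hx), cp_cp]
        rw [neg_smul, smul_neg]
    have hsum : ∑ y ∈ τ.image rep, ν' y • b y = 0 := by
      rw [Finset.sum_image hinj, Finset.sum_congr rfl hterm]
      funext i
      rw [Finset.sum_apply]
      simpa [smul_eq_mul] using hν i
    have h1 := hb2 (τ.image rep) (Finset.subset_univ _) (Finset.card_image_le.trans hc) ν' hsum
    intro x hx
    have h2 := h1 (rep x) (Finset.mem_image_of_mem _ hx)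
    simp only [hrep] at h2
    split_ifs at h2 with h
    · simp only [hν'] at h2
      rwa [if_pos hx] at h2
    · simp only [hν'] at h2
      rw [if_neg (hτ x hx), cp_cp] at h2
      linarith

end Pool.Agent.Lib.MP_506ba8_co.H4
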