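import Pool.Agent.Lib.MP_506ba8_co.H4.Next

/-!
# Iteration of the refinement
-/

set_option autoImplicit false

open Finset

set_option linter.unusedSectionVars false
set_option linter.style.longLine false
set_option linter.unusedVariables false

namespace Pool.Agent.Lib.MP_506ba8_co.H4

lemma good_mono {κ : Type} {m r k : ℕ} {L : κ → Fin m → ℝ} {Z : Set (Fin (r + 1) → ℝ)}
    {D E D' E' : ℝ} (h : Good m r k L Z D E) (hD : D ≤ D') (hE : E ≤ E') :
    Good m r k L Z D' E' := by
  obtain ⟨α, i1, ⟨T⟩⟩ := h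
  exact ⟨α, i1, ⟨{
    inv := T.inv
    inv_inv := T.inv_inv
    x := T.x
    lam := T.lam
    cont := T.cont
    nonneg := T.nonneg
    odd := T.odd
    sgn := T.sgn
    xinv := T.xinv
    card := T.card
    bx := fun w hw => (T.bx w hw).trans hD
    lin := fun v w hw hv i => (T.lin v w hw hv i).trans hE
    ne := T.ne }⟩⟩

lemma qr_self {n : ℝ} (hn : 0 ≤ n) : qr n n = Real.sqrt n := by
  unfold qr
  rw [← sq, Real.sqrt_sq hn]

/-- while `D ^ 3` is larger than `A ^ 4 n` the tolerance is small -/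
lemma qr_small {n D A : ℝ} (hA : 1 ≤ A) (hn : 1 ≤ n) (hD0 : 0 ≤ D) (hD : A ^ 4 * n ≤ D ^ 3) :
    qr n D ≤ D / A := by
  have hA0 : 0 < A := by linarith
  have h2 : n * D ≤ ((D / A) ^ 2) ^ 2 := by
    have h3 : ((D / A) ^ 2) ^ 2 = D ^ 3 * D / A ^ 4 := by
      field_simp
    rw [h3, le_div_iff₀ (by positivity)]
    have := mul_le_mul_of_nonneg_right hD hD0
    linarith
  unfold qr
  have h3 : Real.sqrt (n * D) ≤ (D / A) ^ 2 := by
    rw [← Real.sqrt_sq (show 0 ≤ (D / A) ^ 2 by positivity)]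
    exact Real.sqrt_le_sqrt h2
  calc Real.sqrt (Real.sqrt (n * D)) ≤ Real.sqrt ((D / A) ^ 2) := Real.sqrt_le_sqrt h3
    _ = D / A := Real.sqrt_sq (by positivity)

theorem good_iter (k : ℕ) : ∃ C : ℝ, 1 ≤ C ∧ ∀ (κ : Type) [Fintype κ] (m r n R : ℕ)
    (L : κ → Fin m → ℝ) (Z : Set (Fin (r + 1) → ℝ)) (E₀ : ℝ), (∀ i j, |L i j| ≤ 1) →
    Good m r k L Z R E₀ → R < m → R ≤ n → 1 ≤ n → Fintype.card κ + 2 ^ (2 ^ (k + 1)) ≤ n →
    ∃ D : ℝ, 0 ≤ D ∧ D ^ 3 ≤ C * n ∧ Good m r k L Z D (E₀ + C * Real.sqrt n) := by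
  set c : ℝ := (1 / ((k : ℝ) + 1)) ^ k with hc
  have hk : (0 : ℝ) < (k : ℝ) + 1 := by positivity
  have hk0 : (0 : ℝ) ≤ k := Nat.cast_nonneg k
  have hq1 : 1 / ((k : ℝ) + 1) ≤ 1 := by
    rw [div_le_one hk]
    linarith
  have hc0 : 0 < c := by positivity
  have hc1 : c ≤ 1 := pow_le_one₀ (by positivity) hq1
  set A : ℝ := 800 * k / c + 1 with hA
  have hA1 : 1 ≤ A := by
    have : 0 ≤ 800 * (k : ℝ) / c := by positivity
    linarith
  have hA4 : 1 ≤ A ^ 4 := one_le_pow₀ hA1
  set s : ℝ := 1 - c / 8 with hs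
  have hs0 : 0 < s := by linarith
  have hs1 : s < 1 := by linarith
  set C : ℝ := A ^ 4 + 3200 / c with hC
  have hC0 : 0 ≤ 3200 / c := by positivity
  refine ⟨C, by linarith, ?_⟩
  intro κ _ m r n R L Z E₀ hL h0 hRm hRn hn1 hn
  have hn1' : (1 : ℝ) ≤ n := by exact_mod_cast hn1
  have hsq : 1 ≤ Real.sqrt n := by rw [Real.one_le_sqrt]; exact hn1'
  have hCn : 3200 / c * Real.sqrt n ≤ C * Real.sqrt n := by
    apply mul_le_mul_of_nonneg_right _ (by linarith)
    linarith
  have hAn : A ^ 4 * n ≤ C * n := by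
    apply mul_le_mul_of_nonneg_right _ (by linarith)
    linarith
  have hs4 : 1 - c / 2 ≤ s ^ 4 := by
    have e1 : s ^ 4 - (1 - c / 2) = c ^ 2 * (6 / 64) - c ^ 3 * (4 / 512) + c ^ 4 / 4096 := by
      rw [hs]; ring
    have e2 : c ^ 3 ≤ c ^ 2 := pow_le_pow_of_le_one hc0.le hc1 (by norm_num)
    have e3 : 0 ≤ c ^ 4 := by positivity
    have e4 : 0 ≤ c ^ 2 := by positivity
    linarith
  have hfinE : ∀ t : ℕ, 3200 / c * Real.sqrt n * (1 - s ^ t) ≤ C * Real.sqrt n := by
    intro t
    have hst : 0 < s ^ t := by positivity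
    have e1 : 3200 / c * Real.sqrt n * (1 - s ^ t) ≤ 3200 / c * Real.sqrt n * 1 := by
      apply mul_le_mul_of_nonneg_left (by linarith)
      positivity
    linarith
  have key : ∀ t : ℕ, (∃ D : ℝ, 0 ≤ D ∧ D ^ 3 ≤ C * n ∧
        Good m r k L Z D (E₀ + C * Real.sqrt n)) ∨
      Good m r k L Z ((s ^ 4) ^ t * R) (E₀ + 3200 / c * Real.sqrt n * (1 - s ^ t)) := by
    intro t
    induction t with
    | zero =>
      right
      simpa using h0
    | succ t ih =>
      rcases ih with ih | ih
      · exact Or.inl ih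
      set D : ℝ := (s ^ 4) ^ t * R with hD
      have hst : 0 < s ^ t := by positivity
      have hst1 : s ^ t ≤ 1 := pow_le_one₀ hs0.le hs1.le
      have hD0 : 0 ≤ D := by positivity
      have hDR : D ≤ R := by
        have : (s ^ 4) ^ t ≤ 1 := pow_le_one₀ (by positivity) (pow_le_one₀ hs0.le hs1.le)
        have hR0 : (0 : ℝ) ≤ R := Nat.cast_nonneg R
        nlinarith
      by_cases hfin : D ^ 3 ≤ A ^ 4 * n
      · left
        refine ⟨D, hD0, hfin.trans hAn, good_mono ih le_rfl ?_⟩
        have := hfinE t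
        linarith
      · right
        push Not at hfin
        have hsm := qr_small hA1 hn1' hD0 hfin.le
        have hstep := good_step ih hL hD0
          (lt_of_le_of_lt hDR (by exact_mod_cast hRm)) (hDR.trans (by exact_mod_cast hRn)) hn
          (le_refl (400 * qr n D))
        refine good_mono hstep ?_ ?_
        · rw [← hc]
          have e1 : (k : ℝ) * (400 * qr n D) ≤ c / 2 * D := by
            have e2 : (k : ℝ) * (400 * qr n D) ≤ k * (400 * (D / A)) := by
              apply mul_le_mul_of_nonneg_left _ hk0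
              linarith
            have e3 : (k : ℝ) * (400 * (D / A)) = (400 * k / A) * D := by ring
            have e4 : 400 * (k : ℝ) / A ≤ c / 2 := by
              rw [div_le_iff₀ (by linarith)]
              have : c / 2 * A = 400 * k + c / 2 := by
                rw [hA]
                field_simp
                ring
              rw [this]
              linarith
            rw [e3] at e2
            exact e2.trans (mul_le_mul_of_nonneg_right e4 hD0)
          have e5 : (s ^ 4) ^ (t + 1) * R = s ^ 4 * D := by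
            rw [hD, pow_succ]; ring
          rw [e5]
          have e6 : (1 - c / 2) * D ≤ s ^ 4 * D := mul_le_mul_of_nonneg_right hs4 hD0
          linarith
        · have e1 : qr n D ≤ s ^ t * Real.sqrt n := by
            rw [← qr_self (by linarith : (0 : ℝ) ≤ n)]
            apply qr_scale (by linarith) hst.le
            rw [hD]
            have e2 : (s ^ t) ^ 4 = (s ^ 4) ^ t := by
              rw [← pow_mul, ← pow_mul, mul_comm]
            rw [e2]
            apply mul_le_mul_of_nonneg_left _ (by positivity)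
            exact_mod_cast hRn
          have e3 : 3200 / c * Real.sqrt n * (1 - s ^ (t + 1)) =
              3200 / c * Real.sqrt n * (1 - s ^ t) + 400 * (s ^ t * Real.sqrt n) := by
            rw [pow_succ, hs]
            field_simp
            ring
          rw [e3]
          linarith
  obtain ⟨t, ht⟩ : ∃ t : ℕ, (s ^ 4) ^ t * R ≤ 1 := by
    have h4 : s ^ 4 < 1 := pow_lt_one₀ hs0.le hs1 (by norm_num)
    have hR0 : (0 : ℝ) < (R : ℝ) + 1 := by positivity
    obtain ⟨t, ht⟩ := exists_pow_lt_of_lt_one (show 0 < 1 / ((R : ℝ) + 1) by positivity) h4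
    refine ⟨t, ?_⟩
    have e2 : (s ^ 4) ^ t * R ≤ 1 / ((R : ℝ) + 1) * R :=
      mul_le_mul_of_nonneg_right ht.le (Nat.cast_nonneg R)
    have e3 : 1 / ((R : ℝ) + 1) * R ≤ 1 := by
      rw [div_mul_eq_mul_div, div_le_one hR0]
      linarith
    linarith
  rcases key t with h | h
  · exact h
  · refine ⟨(s ^ 4) ^ t * R, by positivity, ?_, good_mono h le_rfl ?_⟩
    · have e1 : ((s ^ 4) ^ t * (R : ℝ)) ^ 3 ≤ 1 := pow_le_one₀ (by positivity) ht
      have e2 : 1 ≤ C := by linarith
      nlinarith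
    · have := hfinE t
      linarith

end Pool.Agent.Lib.MP_506ba8_co.H4
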