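import Pool.Agent.Lib.MP_506ba8_co.H4.Rounding

/-!
# Levels of the coarse refinement
-/

set_option autoImplicit false

open Finset

set_option linter.unusedSectionVars false
set_option linter.style.longLine false

namespace Pool.Agent.Lib.MP_506ba8_co.H4

/-- sign vectors -/
def Sgn {m : ℕ} (x : Fin m → ℝ) : Prop := ∀ j, x j = 1 ∨ x j = -1

/-- support of the weights at `w` -/
noncomputable def spt {α W : Type} [Fintype α] (lam : α → W → ℝ) (w : W) : Finset α := by
  classical exact Finset.univ.filter (fun v => 0 < lam v w)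

/-- coordinates where the sign vectors `x v`, `v ∈ s`, do not all agree -/
noncomputable def box {α : Type} {m : ℕ} (x : α → Fin m → ℝ) (s : Finset α) : Finset (Fin m) := by
  classical exact Finset.univ.filter (fun j => ∃ u ∈ s, ∃ v ∈ s, x u j ≠ x v j)

lemma mem_spt {α W : Type} [Fintype α] {lam : α → W → ℝ} {w : W} {v : α} :
    v ∈ spt lam w ↔ 0 < lam v w := by
  classical
  simp [spt]

lemma mem_box {α : Type} {m : ℕ} {x : α → Fin m → ℝ} {s : Finset α} {j : Fin m} :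
    j ∈ box x s ↔ ∃ u ∈ s, ∃ v ∈ s, x u j ≠ x v j := by
  classical
  simp [box]

lemma box_mono {α : Type} {m : ℕ} {x : α → Fin m → ℝ} {s t : Finset α} (h : s ⊆ t) :
    box x s ⊆ box x t := by
  intro j hj
  rw [mem_box] at hj ⊢
  obtain ⟨u, hu, v, hv, h1⟩ := hj
  exact ⟨u, h hu, v, h hv, h1⟩

lemma not_mem_box {α : Type} {m : ℕ} {x : α → Fin m → ℝ} {s : Finset α} {j : Fin m}
    (h : j ∉ box x s) {u v : α} (hu : u ∈ s) (hv : v ∈ s) : x u j = x v j := by
  by_contra h1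
  exact h (mem_box.2 ⟨u, hu, v, hv, h1⟩)

/-- One level: an odd partition (not normalized) on the sphere, with sign vectors. -/
structure Lev {κ : Type} (m r k : ℕ) (L : κ → Fin m → ℝ) (Z : Set (Fin (r + 1) → ℝ)) (D E : ℝ)
    (α : Type) [Fintype α] where
  inv : α → α
  inv_inv : ∀ v, inv (inv v) = v
  x : α → Fin m → ℝ
  lam : α → (Fin (r + 1) → ℝ) → ℝ
  cont : ∀ v, ContinuousOn (lam v) {w | ‖w‖ = 1}
  nonneg : ∀ v w, ‖w‖ = 1 → 0 ≤ lam v w
  odd : ∀ v w, ‖w‖ = 1 → lam (inv v) (-w) = lam v w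
  sgn : ∀ v w, ‖w‖ = 1 → 0 < lam v w → Sgn (x v)
  xinv : ∀ v w, ‖w‖ = 1 → 0 < lam v w → x (inv v) = - x v
  card : ∀ w, ‖w‖ = 1 → (spt lam w).card ≤ k + 1
  bx : ∀ w, ‖w‖ = 1 → ((box x (spt lam w)).card : ℝ) ≤ D
  lin : ∀ v w, ‖w‖ = 1 → 0 < lam v w → ∀ i, |∑ j, L i j * x v j| ≤ E
  ne : ∀ w ∈ Z, ‖w‖ = 1 → (spt lam w).Nonempty

/-- There is a level with box size `D` and error `E`. -/
def Good {κ : Type} (m r k : ℕ) (L : κ → Fin m → ℝ) (Z : Set (Fin (r + 1) → ℝ)) (D E : ℝ) :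
    Prop := ∃ (α : Type) (_ : Fintype α), Nonempty (Lev m r k L Z D E α)

/-- Equivariant choice. -/
lemma eq_choice {β : Type} {m : ℕ} (ι : β → β) (hι : ∀ b, ι (ι b) = b)
    (P : β → (Fin m → ℝ) → Prop) (A : β → Prop) (hA : ∀ b, A b → A (ι b))
    (hP : ∀ b r, A b → P b r → P (ι b) (-r)) (hne : ∀ b, A b → ι b ≠ b)
    (hex : ∀ b, A b → ∃ r, P b r) :
    ∃ f : β → Fin m → ℝ, ∀ b, A b → P b (f b) ∧ f (ι b) = - f b := by
  classical
  obtain ⟨_, _⟩ := exists_wellFoundedLT β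
  have hex' : ∀ b, ∃ r, A b → P b r := by
    intro b
    by_cases h : A b
    · obtain ⟨r, hr⟩ := hex b h
      exact ⟨r, fun _ => hr⟩
    · exact ⟨0, fun h' => absurd h' h⟩
  choose g hg using hex'
  refine ⟨fun b => if b < ι b then g b else - g (ι b), fun b hb => ?_⟩
  have h1 := hne b hb
  rcases lt_or_gt_of_ne h1 with h | h
  · have h2 : ¬ b < ι b := not_lt.2 h.le
    have h3 : ι b < ι (ι b) := by rwa [hι]
    simp only [if_neg h2, if_pos h3, neg_neg, and_true]
    have := hP (ι b) (g (ι b)) (hA b hb) (hg _ (hA b hb))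
    rwa [hι] at this
  · have h2 : ¬ ι b < b := not_lt.2 (le_of_lt h)
    have h3 : b < ι b := h
    simp only [if_pos h3, hι, if_neg h2, and_true]
    exact hg b hb

/-! ### Averages and common signs -/

section avg

variable {α : Type} {m : ℕ}

/-- average of the sign vectors -/
noncomputable def av (x : α → Fin m → ℝ) (s : Finset α) (j : Fin m) : ℝ :=
  (∑ v ∈ s, x v j) / s.card

/-- common sign of the vectors `x v`, `v ∈ c`, or `0` -/
noncomputable def sv {β : Type} (x : β → Fin m → ℝ) (c : Finset β) (j : Fin m) : ℝ := by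
  classical exact if ∀ ρ ∈ c, x ρ j = 1 then 1 else if ∀ ρ ∈ c, x ρ j = -1 then -1 else 0

lemma abs_sv_le {β : Type} (x : β → Fin m → ℝ) (c : Finset β) (j : Fin m) : |sv x c j| ≤ 1 := by
  classical
  unfold sv
  split_ifs <;> norm_num

lemma av_eq {x : α → Fin m → ℝ} {s : Finset α} {j : Fin m} {e : ℝ} (hs : s.Nonempty)
    (h : ∀ v ∈ s, x v j = e) : av x s j = e := by
  unfold av
  rw [Finset.sum_congr rfl h, Finset.sum_const, nsmul_eq_mul]
  have : (s.card : ℝ) ≠ 0 := by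
    have := Finset.card_pos.2 hs
    positivity
  field_simp

lemma abs_av_le {x : α → Fin m → ℝ} {s : Finset α} {j : Fin m} (hs : s.Nonempty)
    (h : ∀ v ∈ s, Sgn (x v)) : |av x s j| ≤ 1 := by
  have hc : (0 : ℝ) < s.card := by exact_mod_cast Finset.card_pos.2 hs
  unfold av
  rw [abs_div, abs_of_pos hc, div_le_one hc]
  calc |∑ v ∈ s, x v j| ≤ ∑ v ∈ s, |x v j| := Finset.abs_sum_le_sum_abs _ _
    _ ≤ ∑ _v ∈ s, (1 : ℝ) := Finset.sum_le_sum fun v hv => by
        rcases h v hv j with h1 | h1 <;> rw [h1] <;> norm_num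
    _ = s.card := by simp

/-- if one of the signs is `e` then the average is not too far from `e` -/
lemma av_lower {x : α → Fin m → ℝ} {s : Finset α} {j : Fin m} {e : ℝ} (he : e = 1 ∨ e = -1)
    (h : ∀ v ∈ s, Sgn (x v)) {v : α} (hv : v ∈ s) (hvj : x v j = e) :
    (1 - e * av x s j) / 2 ≤ 1 - 1 / (s.card : ℝ) := by
  classical
  have hc : (0 : ℝ) < s.card := by exact_mod_cast Finset.card_pos.2 ⟨v, hv⟩
  have h1 : e * ∑ u ∈ s, x u j ≥ 2 - s.card := by
    rw [← Finset.add_sum_erase s _ hv, mul_add, hvj]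
    have e1 : e * e = 1 := by rcases he with rfl | rfl <;> norm_num
    have e2 : e * ∑ u ∈ s.erase v, x u j ≥ -((s.erase v).card : ℝ) := by
      rw [Finset.mul_sum]
      have : ∑ _u ∈ s.erase v, (-1 : ℝ) ≤ ∑ u ∈ s.erase v, e * x u j := by
        refine Finset.sum_le_sum fun u hu => ?_
        rcases h u (Finset.mem_of_mem_erase hu) j with h2 | h2 <;> rw [h2] <;>
          rcases he with rfl | rfl <;> norm_num
      rw [Finset.sum_const, nsmul_eq_mul] at this
      linarith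
    have e3 : ((s.erase v).card : ℝ) = s.card - 1 := by
      rw [Finset.card_erase_of_mem hv, Nat.cast_sub (Finset.card_pos.2 ⟨v, hv⟩)]
      norm_num
    rw [e3] at e2
    linarith
  have h2 : e * av x s j = (e * ∑ u ∈ s, x u j) / s.card := by
    unfold av
    ring
  rw [h2]
  have h3 : (2 - (s.card : ℝ)) / s.card ≤ (e * ∑ u ∈ s, x u j) / s.card :=
    div_le_div_of_nonneg_right h1 hc.le
  have h4 : (2 - (s.card : ℝ)) / s.card = 2 / s.card - 1 := by
    field_simp
  rw [h4] at h3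
  have h5 : (1 : ℝ) / s.card = (2 / s.card) / 2 := by ring
  rw [h5]
  linarith

lemma sv_eq {β : Type} {x : β → Fin m → ℝ} {c : Finset β} {j : Fin m} (hc : c.Nonempty)
    (hs : ∀ ρ ∈ c, Sgn (x ρ)) (h : j ∉ box x c) {ρ : β} (hρ : ρ ∈ c) : sv x c j = x ρ j := by
  classical
  unfold sv
  rcases hs ρ hρ j with h1 | h1
  · rw [if_pos (fun ρ' hρ' => by rw [not_mem_box h hρ' hρ, h1]), h1]
  · rw [if_neg, if_pos (fun ρ' hρ' => by rw [not_mem_box h hρ' hρ, h1]), h1]
    intro h2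
    have := h2 ρ hρ
    rw [h1] at this
    norm_num at this

lemma sv_eq_zero {β : Type} {x : β → Fin m → ℝ} {c : Finset β} {j : Fin m}
    (h : j ∈ box x c) : sv x c j = 0 := by
  classical
  obtain ⟨u, hu, v, hv, h1⟩ := mem_box.1 h
  unfold sv
  rw [if_neg, if_neg]
  · intro h2
    exact h1 (by rw [h2 u hu, h2 v hv])
  · intro h2
    exact h1 (by rw [h2 u hu, h2 v hv])

end avg

end Pool.Agent.Lib.MP_506ba8_co.H4
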