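import Pool.Agent.Lib.MP_506ba8_co.H4.Mu

/-!
# The initial level
-/

set_option autoImplicit false

open Finset

set_option linter.unusedSectionVars false
set_option linter.style.longLine false
set_option linter.unusedVariables false

namespace Pool.Agent.Lib.MP_506ba8_co.H4

open Pool.Agent.Lib.MP_506ba8_co.H52 (nk nk_neg abs_nk_le frac_card continuousOn_nk)

lemma sg_ne (b : Bool) : sg b = 1 ∨ sg b = -1 := by
  cases b <;> simp [sg]

theorem good_init {m N k n : ℕ} (L : Fin N → Fin m → ℝ) (hL : ∀ i j, |L i j| ≤ 1)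
    (hRm : N + k < m) (hn : N + k ≤ n) :
    ∃ a : (Fin m → Bool) → Fin N → ℝ, (∀ x, a (cp x) = - a x) ∧
      Good m (N + k) k L {w | ∀ i, ∑ x, mu x (nk m w) * a x i = 0} ((N + k : ℕ) : ℝ)
        (1 + 400 * Real.sqrt n) := by
  classical
  have hm : 0 < m := by omega
  obtain ⟨a, ha1, ha2, ha3⟩ := generic_odd hm L
  refine ⟨a, ha1, ?_⟩
  set lx : (Fin m → Bool) → (Fin (N + k + 1) → ℝ) → ℝ := fun x w => mu x (nk m w) with hlx
  have hlx0 : ∀ w x, 0 ≤ lx x w := fun w x => mu_nonneg _ _
  have hneg : ∀ w : Fin (N + k + 1) → ℝ, nk m (-w) = - nk m w := by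
    intro w
    funext j
    exact nk_neg w j
  have hlxodd : ∀ x w, lx (cp x) (-w) = lx x w := by
    intro x w
    simp only [hlx]
    rw [hneg, mu_odd]
  have hint : ∀ w : Fin (N + k + 1) → ℝ, ‖w‖ = 1 → ∃ j, ¬ |nk m w j| < 1 := by
    intro w hw
    by_contra h
    push Not at h
    have h1 := frac_card hm hw
    rw [Finset.filter_true_of_mem (fun j _ => h j), Finset.card_univ, Fintype.card_fin] at h1
    omega
  set V0 : Finset (Fin m → Bool) → Prop := fun τ => ∃ ν : (Fin m → Bool) → ℝ,
    (∀ x ∈ τ, 0 ≤ ν x) ∧ ∑ x ∈ τ, ν x = 1 ∧ ∀ i, ∑ x ∈ τ, ν x * a x i = 0 with hV0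
  set lam0 : Finset (Fin m → Bool) → (Fin (N + k + 1) → ℝ) → ℝ := fun τ w =>
    if V0 τ then nl lx τ w else 0 with hlam0
  have hpos : ∀ τ w, 0 < lam0 τ w → V0 τ ∧ 0 < nl lx τ w := by
    intro τ w h
    simp only [hlam0] at h
    split_ifs at h with h1
    · exact ⟨h1, h⟩
    · exact absurd h (lt_irrefl 0)
  have hcpinj : Function.Injective (cp : (Fin m → Bool) → (Fin m → Bool)) := fun u v h => by
    rw [← cp_cp u, h, cp_cp]
  have himim : ∀ τ : Finset (Fin m → Bool), (τ.image cp).image cp = τ := by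
    intro τ
    rw [Finset.image_image]
    have : (cp ∘ cp : (Fin m → Bool) → (Fin m → Bool)) = id := by
      funext x
      exact cp_cp x
    rw [this, Finset.image_id]
  have hmemim : ∀ (τ : Finset (Fin m → Bool)) x, x ∈ τ.image cp ↔ cp x ∈ τ := by
    intro τ x
    rw [Finset.mem_image]
    constructor
    · rintro ⟨y, hy, rfl⟩
      rwa [cp_cp]
    · intro h
      exact ⟨_, h, cp_cp x⟩
  have hV0im : ∀ τ, V0 τ → V0 (τ.image cp) := by
    rintro τ ⟨ν, h1, h2, h3⟩
    refine ⟨fun x => ν (cp x), fun x hx => h1 _ ((hmemim τ x).1 hx), ?_, fun i => ?_⟩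
    · rw [Finset.sum_image (fun x _ y _ h => hcpinj h)]
      simp only [cp_cp]
      exact h2
    · rw [Finset.sum_image (fun x _ y _ h => hcpinj h)]
      simp only [cp_cp, ha1, Pi.neg_apply, mul_neg, Finset.sum_neg_distrib, h3 i, neg_zero]
  have hlamodd : ∀ τ w, lam0 (τ.image cp) (-w) = lam0 τ w := by
    intro τ w
    simp only [hlam0]
    have h1 : V0 (τ.image cp) ↔ V0 τ := by
      constructor
      · intro h
        have := hV0im _ h
        rwa [himim] at this
      · exact hV0im τ
    have h2 : nl lx (τ.image cp) (-w) = nl lx τ w :=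
      nl_inv cp cp_cp (fun x => hlxodd x w) τ _ (fun x => hmemim τ x)
    rw [h2]
    simp only [h1]
  have hanti : ∀ τ w, ‖w‖ = 1 → 0 < nl lx τ w → ∀ x ∈ τ, cp x ∉ τ := by
    intro τ w hw h x hx hx'
    obtain ⟨j, hj⟩ := hint w hw
    have h1 := mem_spt.1 (nl_sub (hlx0 w) h hx)
    have h2 := mem_spt.1 (nl_sub (hlx0 w) h hx')
    have e1 := mu_int (abs_nk_le hw) h1 hj
    have e2 := mu_int (abs_nk_le hw) h2 hj
    rw [cp, sg_not, ← e1] at e2
    rcases sg_ne (x j) with h3 | h3 <;> rw [h3] at e2 <;> norm_num at e2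
  have hcardlow : ∀ τ w, ‖w‖ = 1 → 0 < lam0 τ w → N + 1 ≤ τ.card ∧ τ.card < N + k + 2 := by
    intro τ w hw h
    obtain ⟨⟨ν, h1, h2, h3⟩, h4⟩ := hpos τ w h
    constructor
    · by_contra h5
      have h6 := ha3 τ (hanti τ w hw h4) (by omega) ν h3
      rw [Finset.sum_congr rfl h6] at h2
      simp at h2
    · have := mu_card (abs_nk_le hw) (frac_card hm hw) τ
        (fun x hx => mem_spt.1 (nl_sub (hlx0 w) h4 hx))
      omega
  -- the roundings
  set E₀ : ℝ := 1 + 400 * Real.sqrt n with hE₀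
  obtain ⟨f, hf⟩ := eq_choice (m := m) (fun τ : Finset (Fin m → Bool) => τ.image cp) himim
    (fun τ y => Sgn y ∧ (∀ j e, (∀ x ∈ τ, sg (x j) = e) → y j = e) ∧
      ∀ i, |∑ j, L i j * y j| ≤ E₀)
    (fun τ => ∃ w, ‖w‖ = 1 ∧ 0 < lam0 τ w) (by
      rintro τ ⟨w, hw, h⟩
      exact ⟨-w, by rwa [norm_neg], by rwa [hlamodd]⟩) (by
      rintro τ y _ ⟨h1, h2, h3⟩
      refine ⟨fun j => ?_, fun j e he => ?_, fun i => ?_⟩
      · rcases h1 j with h | h
        · right; simp [h]
        · left; simp [h]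
      · have h4 := h2 j (-e) (fun x hx => by
          have := he (cp x) (Finset.mem_image_of_mem _ hx)
          rw [cp, sg_not] at this
          linarith)
        rw [Pi.neg_apply, h4, neg_neg]
      · have := h3 i
        rw [← abs_neg, ← Finset.sum_neg_distrib] at this
        refine le_trans (le_of_eq ?_) this
        congr 1
        refine Finset.sum_congr rfl fun j _ => ?_
        rw [Pi.neg_apply]
        ring) (by
      rintro τ ⟨w, hw, h⟩ heq
      have h4 := (hpos τ w h).2
      obtain ⟨x, hx⟩ := ((nl_pos (hlx0 w)).1 h4).1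
      apply hanti τ w hw h4 x hx
      rw [← hmemim, heq]
      exact hx) (by
      rintro τ ⟨w, hw, h⟩
      obtain ⟨⟨ν, h1, h2, h3⟩, h4⟩ := hpos τ w h
      have hτs : ∀ x ∈ τ, 0 < mu x (nk m w) := fun x hx => mem_spt.1 (nl_sub (hlx0 w) h4 hx)
      set y : Fin m → ℝ := fun j => ∑ x ∈ τ, ν x * sg (x j) with hy
      have hy1 : ∀ j, |y j| ≤ 1 := by
        intro j
        calc |y j| ≤ ∑ x ∈ τ, |ν x * sg (x j)| := Finset.abs_sum_le_sum_abs _ _
          _ = ∑ x ∈ τ, ν x := Finset.sum_congr rfl fun x hx => by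
              rw [abs_mul, abs_of_nonneg (h1 x hx)]
              rcases sg_ne (x j) with h5 | h5 <;> rw [h5] <;> norm_num
          _ = 1 := h2
      have hy2 : ∀ j e, (∀ x ∈ τ, sg (x j) = e) → y j = e := by
        intro j e he
        simp only [hy]
        rw [Finset.sum_congr rfl (fun x hx => by rw [he x hx]), ← Finset.sum_mul, h2, one_mul]
      have hy3 : (Finset.univ.filter (fun j => |y j| < 1)).card ≤ N + k := by
        refine le_trans (Finset.card_le_card fun j hj => ?_) (frac_card hm hw)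
        rw [Finset.mem_filter] at hj ⊢
        refine ⟨hj.1, ?_⟩
        by_contra h5
        have h6 : y j = nk m w j := hy2 j _ (fun x hx => mu_int (abs_nk_le hw) (hτs x hx) h5)
        rw [h6] at hj
        exact h5 hj.2
      obtain ⟨z, hz1, hz2, hz3⟩ := rounding (n := n) L hL (by rw [Fintype.card_fin]; omega) _ y hy1
        rfl (hy3.trans hn)
      refine ⟨z, hz1, fun j e he => ?_, fun i => ?_⟩
      · have h5 := hy2 j e he
        rw [hz2 j, h5]
        rw [h5]
        obtain ⟨x, hx⟩ := ((nl_pos (hlx0 w)).1 h4).1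
        rw [← he x hx]
        rcases sg_ne (x j) with h6 | h6 <;> rw [h6] <;> norm_num
      · have e1 : ∑ j, L i j * z j = ∑ j, L i j * y j + ∑ j, L i j * (z j - y j) := by
          rw [← Finset.sum_add_distrib]
          refine Finset.sum_congr rfl fun j _ => ?_
          ring
        have e2 : ∑ j, L i j * y j = ∑ x ∈ τ, ν x * (∑ j, L i j * sg (x j) - a x i) := by
          have e3 : ∑ x ∈ τ, ν x * (∑ j, L i j * sg (x j) - a x i) =
              ∑ x ∈ τ, ν x * ∑ j, L i j * sg (x j) - ∑ x ∈ τ, ν x * a x i := by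
            rw [← Finset.sum_sub_distrib]
            refine Finset.sum_congr rfl fun x _ => ?_
            ring
          rw [e3, h3 i, sub_zero]
          simp only [hy]
          simp_rw [Finset.mul_sum]
          rw [Finset.sum_comm]
          refine Finset.sum_congr rfl fun x _ => Finset.sum_congr rfl fun j _ => ?_
          ring
        have e3 : |∑ j, L i j * y j| ≤ 1 := by
          rw [e2]
          calc _ ≤ ∑ x ∈ τ, |ν x * (∑ j, L i j * sg (x j) - a x i)| :=
                Finset.abs_sum_le_sum_abs _ _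
            _ ≤ ∑ x ∈ τ, ν x := Finset.sum_le_sum fun x hx => by
                rw [abs_mul, abs_of_nonneg (h1 x hx)]
                have := ha2 x i
                rw [abs_sub_comm] at this
                nlinarith [h1 x hx]
            _ = 1 := h2
        have e4 : qr n ((Finset.univ.filter (fun j => |y j| < 1)).card : ℕ) ≤ Real.sqrt n := by
          rw [← qr_self (Nat.cast_nonneg n)]
          apply qr_mono (Nat.cast_nonneg n)
          exact_mod_cast hy3.trans hn
        rw [e1]
        refine (abs_add_le _ _).trans ?_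
        have := hz3 i
        rw [hE₀]
        linarith)
  refine ⟨Finset (Fin m → Bool), inferInstance, ⟨{
    inv := fun τ => τ.image cp
    inv_inv := himim
    x := f
    lam := lam0
    cont := ?_
    nonneg := ?_
    odd := fun τ w _ => hlamodd τ w
    sgn := fun τ w hw h => (hf τ ⟨w, hw, h⟩).1.1
    xinv := fun τ w hw h => (hf τ ⟨w, hw, h⟩).2
    card := ?_
    bx := ?_
    lin := fun τ w hw h i => (hf τ ⟨w, hw, h⟩).1.2.2 i
    ne := ?_ }⟩⟩
  · intro τ
    simp only [hlam0]
    split_ifs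
    · exact nl_cont (fun x => (mu_cont x).comp_continuousOn continuousOn_nk) τ
    · exact continuousOn_const
  · intro τ w hw
    simp only [hlam0]
    split_ifs
    · exact nl_nonneg (hlx0 w)
    · exact le_rfl
  · intro w hw
    have := chain_card (σ := (∅ : Finset (Fin m → Bool))) (c := spt lam0 w) (a := N + 1)
      (b := N + k + 2) (fun τ hτ => hcardlow τ w hw (mem_spt.1 hτ)) (fun τ hτ τ' hτ' =>
        nl_chain (hlx0 w) (hpos τ w (mem_spt.1 hτ)).2 (hpos τ' w (mem_spt.1 hτ')).2)
    omega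
  · intro w hw
    have h1 : box f (spt lam0 w) ⊆ Finset.univ.filter (fun j => |nk m w j| < 1) := by
      intro j hj
      rw [Finset.mem_filter]
      refine ⟨Finset.mem_univ _, ?_⟩
      by_contra h5
      obtain ⟨τ, hτ, τ', hτ', h6⟩ := mem_box.1 hj
      rw [mem_spt] at hτ hτ'
      apply h6
      have e1 : ∀ σ, 0 < lam0 σ w → f σ j = nk m w j := by
        intro σ hσ
        exact (hf σ ⟨w, hw, hσ⟩).1.2.1 j _ (fun x hx => mu_int (abs_nk_le hw)
          (mem_spt.1 (nl_sub (hlx0 w) (hpos σ w hσ).2 hx)) h5)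
      rw [e1 τ hτ, e1 τ' hτ']
    exact_mod_cast (Finset.card_le_card h1).trans (frac_card hm hw)
  · intro w hwZ hw
    obtain ⟨x0, hx0⟩ := mu_nonempty (nk m w)
    have hne : (spt lx w).Nonempty := ⟨x0, mem_spt.2 hx0⟩
    refine ⟨spt lx w, mem_spt.2 ?_⟩
    have hV : V0 (spt lx w) := by
      set M : ℝ := ∑ x ∈ spt lx w, lx x w with hM
      have hM0 : 0 < M := Finset.sum_pos (fun x hx => mem_spt.1 hx) hne
      refine ⟨fun x => lx x w / M, fun x _ => div_nonneg (hlx0 w x) hM0.le, ?_, fun i => ?_⟩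
      · rw [← Finset.sum_div, div_self hM0.ne']
      · have h1 : ∑ x ∈ spt lx w, lx x w * a x i = 0 := by
          rw [← hwZ i]
          apply Finset.sum_subset (Finset.subset_univ _)
          intro x _ hx
          have h2 : lx x w = 0 :=
            le_antisymm (not_lt.1 (fun h => hx (mem_spt.2 h))) (hlx0 w x)
          rw [h2, zero_mul]
        have h2 : ∑ x ∈ spt lx w, lx x w / M * a x i = (∑ x ∈ spt lx w, lx x w * a x i) / M := by
          rw [Finset.sum_div]
          refine Finset.sum_congr rfl fun x _ => ?_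
          ring
        rw [h2, h1, zero_div]
    simp only [hlam0]
    rw [if_pos hV]
    exact nl_spt (hlx0 w) hne

end Pool.Agent.Lib.MP_506ba8_co.H4
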