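import Pool.Agent.Lib.MP_506ba8_co.H4.Init

/-!
# Threshold weights and the initial level
-/

set_option autoImplicit false

open Finset

set_option linter.unusedSectionVars false
set_option linter.style.longLine false
set_option linter.unusedVariables false

namespace Pool.Agent.Lib.MP_506ba8_co.H4

/-- threshold weights (product form) -/
noncomputable def mu {m : ℕ} (x : Fin m → Bool) (y : Fin m → ℝ) : ℝ :=
  (∏ j, ∏ l, if x j = true ∧ x l = false then max 0 (y j - y l) else 1) *
    ∏ j, (if x j = true then max 0 (y j + 1) else max 0 (1 - y j))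

lemma mu_nonneg {m : ℕ} (x : Fin m → Bool) (y : Fin m → ℝ) : 0 ≤ mu x y := by
  unfold mu
  refine mul_nonneg (Finset.prod_nonneg fun j _ => Finset.prod_nonneg fun l _ => ?_)
    (Finset.prod_nonneg fun j _ => ?_)
  · split_ifs
    · exact le_max_left _ _
    · exact zero_le_one
  · split_ifs <;> exact le_max_left _ _

lemma mu_pos {m : ℕ} {x : Fin m → Bool} {y : Fin m → ℝ} : 0 < mu x y ↔
    (∀ j l, x j = true → x l = false → y l < y j) ∧ (∀ j, x j = true → -1 < y j) ∧
      ∀ j, x j = false → y j < 1 := by
  constructor
  · intro h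
    have h1 := h.ne'
    unfold mu at h1
    rw [mul_ne_zero_iff, Finset.prod_ne_zero_iff, Finset.prod_ne_zero_iff] at h1
    refine ⟨fun j l hj hl => ?_, fun j hj => ?_, fun j hj => ?_⟩
    · have h2 := h1.1 j (Finset.mem_univ j)
      rw [Finset.prod_ne_zero_iff] at h2
      have h3 := h2 l (Finset.mem_univ l)
      rw [if_pos ⟨hj, hl⟩] at h3
      by_contra h4
      push Not at h4
      exact h3 (max_eq_left (by linarith))
    · have h2 := h1.2 j (Finset.mem_univ j)
      rw [if_pos hj] at h2
      by_contra h4
      push Not at h4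
      exact h2 (max_eq_left (by linarith))
    · have h2 := h1.2 j (Finset.mem_univ j)
      rw [if_neg (by rw [hj]; simp)] at h2
      by_contra h4
      push Not at h4
      exact h2 (max_eq_left (by linarith))
  · rintro ⟨h1, h2, h3⟩
    unfold mu
    refine mul_pos (Finset.prod_pos fun j _ => Finset.prod_pos fun l _ => ?_)
      (Finset.prod_pos fun j _ => ?_)
    · split_ifs with h
      · rw [lt_max_iff]
        right
        have := h1 j l h.1 h.2
        linarith
      · exact one_pos
    · split_ifs with h
      · rw [lt_max_iff]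
        right
        have := h2 j h
        linarith
      · rw [lt_max_iff]
        right
        have := h3 j (by simpa using h)
        linarith

lemma mu_odd {m : ℕ} (x : Fin m → Bool) (y : Fin m → ℝ) : mu (cp x) (-y) = mu x y := by
  unfold mu
  congr 1
  · rw [Finset.prod_comm]
    refine Finset.prod_congr rfl fun j _ => Finset.prod_congr rfl fun l _ => ?_
    have e1 : (-y) l - (-y) j = y j - y l := by
      simp only [Pi.neg_apply]
      ring
    rw [e1]
    rcases Bool.eq_false_or_eq_true (x j) with h1 | h1 <;>
      rcases Bool.eq_false_or_eq_true (x l) with h2 | h2 <;> simp [cp, h1, h2]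
  · refine Finset.prod_congr rfl fun j _ => ?_
    have e1 : (-y) j + 1 = 1 - y j := by
      simp only [Pi.neg_apply]
      ring
    have e2 : 1 - (-y) j = y j + 1 := by
      simp only [Pi.neg_apply]
      ring
    rw [e1, e2]
    rcases Bool.eq_false_or_eq_true (x j) with h1 | h1 <;> simp [cp, h1]

lemma mu_cont {m : ℕ} (x : Fin m → Bool) : Continuous (mu x) := by
  unfold mu
  refine Continuous.mul (continuous_finsetProd _ fun j _ => continuous_finsetProd _ fun l _ => ?_)
    (continuous_finsetProd _ fun j _ => ?_)
  · split_ifs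
    · exact continuous_const.max ((continuous_apply j).sub (continuous_apply l))
    · exact continuous_const
  · split_ifs
    · exact continuous_const.max ((continuous_apply j).add continuous_const)
    · exact continuous_const.max (continuous_const.sub (continuous_apply j))

/-- members of the support agree with the integral coordinates -/
lemma mu_int {m : ℕ} {x : Fin m → Bool} {y : Fin m → ℝ} (hy : ∀ j, |y j| ≤ 1) (h : 0 < mu x y)
    {j : Fin m} (hj : ¬ |y j| < 1) : sg (x j) = y j := by
  rw [mu_pos] at h
  have h1 : |y j| = 1 := le_antisymm (hy j) (not_lt.1 hj)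
  have h2 := h.2.1 j
  have h3 := h.2.2 j
  cases hx : x j with
  | false =>
    have h4 := h3 hx
    rcases abs_cases (y j) with ⟨h5, _⟩ | ⟨h5, _⟩
    · linarith
    · simp only [sg]
      norm_num
      linarith
  | true =>
    have h4 := h2 hx
    rcases abs_cases (y j) with ⟨h5, _⟩ | ⟨h5, _⟩
    · simp only [sg]
      norm_num
      linarith
    · linarith

lemma mu_chain {m : ℕ} {x x' : Fin m → Bool} {y : Fin m → ℝ} (h : 0 < mu x y)
    (h' : 0 < mu x' y) : (∀ j, x j = true → x' j = true) ∨ (∀ j, x' j = true → x j = true) := by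
  rw [mu_pos] at h h'
  by_contra hcon
  push Not at hcon
  obtain ⟨⟨j, hj, hj'⟩, l, hl, hl'⟩ := hcon
  have e1 := h.1 j l hj (by simpa using hl')
  have e2 := h'.1 l j hl (by simpa using hj')
  linarith

lemma mu_nonempty {m : ℕ} (y : Fin m → ℝ) : ∃ x, 0 < mu x y := by
  classical
  obtain ⟨θ, hθ, hθ'⟩ : ∃ θ ∈ Set.Ioo (-1 : ℝ) 1, θ ∉ Set.range y := by
    by_contra h
    push Not at h
    exact (Set.Ioo_infinite (show (-1 : ℝ) < 1 by norm_num)) ((Set.finite_range y).subset h)
  refine ⟨fun j => decide (θ < y j), ?_⟩
  rw [mu_pos]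
  refine ⟨fun j l hj hl => ?_, fun j hj => ?_, fun j hj => ?_⟩
  · have h1 : θ < y j := by simpa using hj
    have h2 : y l ≤ θ := by simpa using hl
    linarith
  · have h1 : θ < y j := by simpa using hj
    linarith [hθ.1]
  · have h2 : y j ≤ θ := by simpa using hj
    linarith [hθ.2]

/-- size of the support -/
lemma mu_card {m R : ℕ} {y : Fin m → ℝ} (hy : ∀ j, |y j| ≤ 1)
    (hR : (Finset.univ.filter (fun j => |y j| < 1)).card ≤ R) (s : Finset (Fin m → Bool))
    (hs : ∀ x ∈ s, 0 < mu x y) : s.card ≤ R + 1 := by
  classical
  set f : (Fin m → Bool) → ℕ := fun x =>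
    (Finset.univ.filter (fun j => |y j| < 1 ∧ x j = true)).card with hf
  have h1 : (s.image f).card = s.card := by
    apply Finset.card_image_of_injOn
    have haux : ∀ x ∈ s, ∀ x' ∈ s, (∀ j, x j = true → x' j = true) → f x = f x' → x = x' := by
      intro x hx x' hx' hle heq
      have h2 : (Finset.univ.filter (fun j => |y j| < 1 ∧ x j = true)) =
          (Finset.univ.filter (fun j => |y j| < 1 ∧ x' j = true)) := by
        apply Finset.eq_of_subset_of_card_le
        · intro j hj
          rw [Finset.mem_filter] at hj ⊢
          exact ⟨hj.1, hj.2.1, hle j hj.2.2⟩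
        · exact heq.ge
      funext j
      by_cases hj : |y j| < 1
      · have h3 : x j = true ↔ x' j = true := by
          have h4 := Finset.ext_iff.1 h2 j
          simp only [Finset.mem_filter, Finset.mem_univ, true_and, hj] at h4
          exact h4
        cases hx1 : x j <;> cases hx2 : x' j <;> simp [hx1, hx2] at h3 ⊢
      · have e1 := mu_int hy (hs x hx) hj
        have e2 := mu_int hy (hs x' hx') hj
        have e3 : sg (x j) = sg (x' j) := by rw [e1, e2]
        cases hx1 : x j <;> cases hx2 : x' j <;> rw [hx1, hx2] at e3 <;>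
          simp only [sg] at e3 <;> norm_num at e3
    intro x hx x' hx' heq
    rcases mu_chain (hs x hx) (hs x' hx') with h | h
    · exact haux x hx x' hx' h heq
    · exact (haux x' hx' x hx h heq.symm).symm
  have h2 : s.image f ⊆ Finset.range (R + 1) := by
    intro t ht
    obtain ⟨x, _, rfl⟩ := Finset.mem_image.1 ht
    rw [Finset.mem_range, Nat.lt_succ_iff]
    refine le_trans (Finset.card_le_card fun j hj => ?_) hR
    rw [Finset.mem_filter] at hj ⊢
    exact ⟨hj.1, hj.2.1⟩
  have h3 := Finset.card_le_card h2
  rw [h1, Finset.card_range] at h3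
  exact h3

end Pool.Agent.Lib.MP_506ba8_co.H4
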