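import Pool.Agent.Lib.MP_506ba8_co.H4.Step

/-!
# The next level
-/

set_option autoImplicit false

open Finset

set_option linter.unusedSectionVars false
set_option linter.style.longLine false
set_option linter.unusedVariables false

namespace Pool.Agent.Lib.MP_506ba8_co.H4

section next

/-- barycentric weights (product form) -/
noncomputable def nl {α W : Type} [Fintype α] (lam : α → W → ℝ) (τ : Finset α) (w : W) : ℝ := by
  classical exact if τ = ∅ then 0 else
    ∏ v ∈ τ, (lam v w * ∏ u ∈ τᶜ, max 0 (lam v w - lam u w))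

variable {α W : Type} [Fintype α] {lam : α → W → ℝ}

lemma nl_nonneg {τ : Finset α} {w : W} (h : ∀ v, 0 ≤ lam v w) : 0 ≤ nl lam τ w := by
  classical
  unfold nl
  split_ifs
  · exact le_rfl
  · exact Finset.prod_nonneg fun v _ => mul_nonneg (h v)
      (Finset.prod_nonneg fun u _ => le_max_left _ _)

lemma nl_pos {τ : Finset α} {w : W} (h : ∀ v, 0 ≤ lam v w) : 0 < nl lam τ w ↔
    τ.Nonempty ∧ ∀ v ∈ τ, 0 < lam v w ∧ ∀ u, u ∉ τ → lam u w < lam v w := by
  classical
  unfold nl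
  split_ifs with h0
  · subst h0
    simp
  · constructor
    · intro h1
      refine ⟨Finset.nonempty_iff_ne_empty.2 h0, fun v hv => ?_⟩
      have h2 : lam v w * ∏ u ∈ τᶜ, max 0 (lam v w - lam u w) ≠ 0 :=
        Finset.prod_ne_zero_iff.1 h1.ne' v hv
      have h3 := mul_ne_zero_iff.1 h2
      refine ⟨lt_of_le_of_ne (h v) (Ne.symm h3.1), fun u hu => ?_⟩
      have h4 := Finset.prod_ne_zero_iff.1 h3.2 u (Finset.mem_compl.2 hu)
      by_contra h5
      push Not at h5
      exact h4 (max_eq_left (by linarith))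
    · rintro ⟨_, h1⟩
      refine Finset.prod_pos fun v hv => mul_pos (h1 v hv).1 (Finset.prod_pos fun u hu => ?_)
      rw [lt_max_iff]
      right
      have := (h1 v hv).2 u (Finset.mem_compl.1 hu)
      linarith

lemma nl_chain {τ τ' : Finset α} {w : W} (h : ∀ v, 0 ≤ lam v w) (h1 : 0 < nl lam τ w)
    (h2 : 0 < nl lam τ' w) : τ ⊆ τ' ∨ τ' ⊆ τ := by
  rw [nl_pos h] at h1 h2
  by_contra hcon
  push Not at hcon
  obtain ⟨⟨v, hv, hv'⟩, u, hu, hu'⟩ := (Finset.not_subset.1 hcon.1), Finset.not_subset.1 hcon.2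
  have e1 := (h1.2 v hv).2 u hu'
  have e2 := (h2.2 u hu).2 v hv'
  linarith

lemma nl_sub {τ : Finset α} {w : W} (h : ∀ v, 0 ≤ lam v w) (h1 : 0 < nl lam τ w) :
    τ ⊆ spt lam w := by
  rw [nl_pos h] at h1
  intro v hv
  rw [mem_spt]
  exact (h1.2 v hv).1

lemma nl_spt {w : W} (h : ∀ v, 0 ≤ lam v w) (h1 : (spt lam w).Nonempty) :
    0 < nl lam (spt lam w) w := by
  rw [nl_pos h]
  refine ⟨h1, fun v hv => ⟨mem_spt.1 hv, fun u hu => ?_⟩⟩
  have : ¬ 0 < lam u w := fun h2 => hu (mem_spt.2 h2)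
  have h3 := mem_spt.1 hv
  linarith

lemma nl_cont {r : ℕ} {lam : α → (Fin (r + 1) → ℝ) → ℝ} {S : Set (Fin (r + 1) → ℝ)}
    (h : ∀ v, ContinuousOn (lam v) S) (τ : Finset α) : ContinuousOn (nl lam τ) S := by
  classical
  unfold nl
  split_ifs
  · exact continuousOn_const
  · refine continuousOn_finsetProd _ fun v _ => (h v).mul ?_
    refine continuousOn_finsetProd _ fun u _ => ?_
    exact continuousOn_const.sup ((h v).sub (h u))

/-- the number of elements of a chain of nonempty subsets -/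
lemma chain_card {σ : Finset α} {c : Finset (Finset α)} {a b : ℕ}
    (hc : ∀ τ ∈ c, a ≤ τ.card ∧ τ.card < b)
    (hch : ∀ τ ∈ c, ∀ τ' ∈ c, τ ⊆ τ' ∨ τ' ⊆ τ) : c.card ≤ b - a := by
  classical
  have h1 : (c.image Finset.card).card = c.card := by
    apply Finset.card_image_of_injOn
    intro τ hτ τ' hτ' h
    rcases hch τ hτ τ' hτ' with h2 | h2
    · exact Finset.eq_of_subset_of_card_le h2 (by omega)
    · exact (Finset.eq_of_subset_of_card_le h2 (by omega)).symm
  have h2 : c.image Finset.card ⊆ Finset.Ico a b := by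
    intro s hs
    obtain ⟨τ, hτ, rfl⟩ := Finset.mem_image.1 hs
    rw [Finset.mem_Ico]
    exact hc τ hτ
  have h3 := Finset.card_le_card h2
  rw [h1, Nat.card_Ico] at h3
  exact h3

/-- equivariance of the barycentric weights -/
lemma nl_inv {r : ℕ} {lam : α → (Fin (r + 1) → ℝ) → ℝ} (ι : α → α) (hι : ∀ v, ι (ι v) = v)
    {w w' : Fin (r + 1) → ℝ} (h : ∀ v, lam (ι v) w' = lam v w) (τ τ' : Finset α)
    (hτ : ∀ v, v ∈ τ' ↔ ι v ∈ τ) : nl lam τ' w' = nl lam τ w := by
  classical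
  have hinj : Function.Injective ι := fun u v h1 => by rw [← hι u, h1, hι]
  have h1 : τ' = τ.image ι := by
    ext v
    rw [hτ, Finset.mem_image]
    constructor
    · intro h2
      exact ⟨_, h2, hι v⟩
    · rintro ⟨u, hu, rfl⟩
      rwa [hι]
  have h2 : τ'ᶜ = τᶜ.image ι := by
    ext v
    rw [Finset.mem_compl, hτ, Finset.mem_image]
    constructor
    · intro h2
      exact ⟨_, Finset.mem_compl.2 h2, hι v⟩
    · rintro ⟨u, hu, rfl⟩
      rw [hι]
      exact Finset.mem_compl.1 hu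
  have h3 : τ' = ∅ ↔ τ = ∅ := by
    rw [h1, Finset.image_eq_empty]
  unfold nl
  by_cases h4 : τ = ∅
  · rw [if_pos h4, if_pos (h3.2 h4)]
  · rw [if_neg h4, if_neg (fun h5 => h4 (h3.1 h5)), h2, h1,
      Finset.prod_image (fun a _ b _ hab => hinj hab)]
    refine Finset.prod_congr rfl fun v _ => ?_
    rw [h v, Finset.prod_image (fun a _ b _ hab => hinj hab)]
    congr 1
    refine Finset.prod_congr rfl fun u _ => ?_
    rw [h u]

end next

/-- **The refinement step.** -/
theorem good_step {κ : Type} [Fintype κ] {m r k n : ℕ} {L : κ → Fin m → ℝ}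
    {Z : Set (Fin (r + 1) → ℝ)} {D E tol : ℝ} (h : Good m r k L Z D E)
    (hL : ∀ i j, |L i j| ≤ 1) (hD0 : 0 ≤ D) (hDm : D < m) (hDn : D ≤ n)
    (hn : Fintype.card κ + 2 ^ (2 ^ (k + 1)) ≤ n) (htol : 400 * qr n D ≤ tol) :
    Good m r k L Z ((1 - (1 / ((k : ℝ) + 1)) ^ k) * D + k * tol) (E + tol) := by
  classical
  obtain ⟨α, _, ⟨T⟩⟩ := h
  have htol0 : 0 ≤ tol := le_trans (mul_nonneg (by norm_num) (qr_nonneg _ _)) htol
  obtain ⟨X, hX0⟩ := exists_PS T hL hDm hDn hn htol (Fintype.card α)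
  have hX : ∀ s, PS T tol X s := by
    intro s τ hτ _
    exact hX0 τ hτ (Finset.card_le_univ τ)
  have hnn : ∀ w, ‖w‖ = 1 → ∀ v, 0 ≤ T.lam v w := fun w hw v => T.nonneg v w hw
  have hadm : ∀ τ w, ‖w‖ = 1 → 0 < nl T.lam τ w → Adm T τ := by
    intro τ w hw h1
    exact ⟨((nl_pos (hnn w hw)).1 h1).1, w, hw, nl_sub (hnn w hw) h1⟩
  have hk : (0 : ℝ) < (k : ℝ) + 1 := by positivity
  have hq0 : 0 < 1 / ((k : ℝ) + 1) := by positivity
  have hq1 : 1 / ((k : ℝ) + 1) ≤ 1 := by
    rw [div_le_one hk]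
    have : (0 : ℝ) ≤ k := Nat.cast_nonneg k
    linarith
  refine ⟨Finset α, inferInstance, ⟨{
    inv := im T
    inv_inv := im_im T
    x := X
    lam := nl T.lam
    cont := fun τ => nl_cont T.cont τ
    nonneg := fun τ w hw => nl_nonneg (hnn w hw)
    odd := ?_
    sgn := ?_
    xinv := ?_
    card := ?_
    bx := ?_
    lin := ?_
    ne := ?_ }⟩⟩
  · intro τ w hw
    exact nl_inv T.inv T.inv_inv (fun v => T.odd v w hw) τ (im T τ) (fun v => mem_im T)
  · intro τ w hw h1
    exact (hX τ.card τ (hadm τ w hw h1) le_rfl).1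
  · intro τ w hw h1
    exact (hX τ.card τ (hadm τ w hw h1) le_rfl).2.2.1
  · intro w hw
    have := chain_card (σ := spt T.lam w) (c := spt (nl T.lam) w) (a := 1) (b := k + 2) ?_ ?_
    · simpa using this
    · intro τ hτ
      rw [mem_spt] at hτ
      have h1 := adm_card T (hadm τ w hw hτ)
      have h2 := Finset.card_pos.2 (hadm τ w hw hτ).1
      omega
    · intro τ hτ τ' hτ'
      rw [mem_spt] at hτ hτ'
      exact nl_chain (hnn w hw) hτ hτ'
  · intro w hw
    rcases Nat.eq_zero_or_pos (spt (nl T.lam) w).card with h0 | hpos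
    · rw [Finset.card_eq_zero] at h0
      have : box X (spt (nl T.lam) w) = ∅ := by
        ext j
        rw [mem_box, h0]
        simp
      rw [this]
      simp only [Finset.card_empty, Nat.cast_zero]
      have h1 : (1 / ((k : ℝ) + 1)) ^ k ≤ 1 := pow_le_one₀ hq0.le hq1
      have h2 : 0 ≤ (1 - (1 / ((k : ℝ) + 1)) ^ k) * D := mul_nonneg (by linarith) hD0
      positivity
    · obtain ⟨l, hl⟩ : ∃ l, (spt (nl T.lam) w).card = l + 1 := ⟨(spt (nl T.lam) w).card - 1, by omega⟩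
      have hlk : l ≤ k := by
        have := chain_card (σ := spt T.lam w) (c := spt (nl T.lam) w) (a := 1) (b := k + 2) ?_ ?_
        · omega
        · intro τ hτ
          rw [mem_spt] at hτ
          have h1 := adm_card T (hadm τ w hw hτ)
          have h2 := Finset.card_pos.2 (hadm τ w hw hτ).1
          omega
        · intro τ hτ τ' hτ'
          rw [mem_spt] at hτ hτ'
          exact nl_chain (hnn w hw) hτ hτ'
      have h1 := contract T htol0 hX hw l (spt (nl T.lam) w) hl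
        (fun ρ hρ => ⟨(hadm ρ w hw (mem_spt.1 hρ)).1, nl_sub (hnn w hw) (mem_spt.1 hρ)⟩)
        (fun ρ hρ ρ' hρ' => nl_chain (hnn w hw) (mem_spt.1 hρ) (mem_spt.1 hρ'))
      have h2 : (1 / ((k : ℝ) + 1)) ^ k ≤ (1 / ((k : ℝ) + 1)) ^ l :=
        pow_le_pow_of_le_one hq0.le hq1 hlk
      have h3 : (1 / ((k : ℝ) + 1)) ^ k ≤ 1 := pow_le_one₀ hq0.le hq1
      have h4 := T.bx w hw
      have h5 : (0 : ℝ) ≤ (box T.x (spt T.lam w)).card := Nat.cast_nonneg _
      have h6 : (l : ℝ) ≤ k := by exact_mod_cast hlk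
      have h7 : (l : ℝ) * tol ≤ k * tol := mul_le_mul_of_nonneg_right h6 htol0
      have h8 : (1 - (1 / ((k : ℝ) + 1)) ^ l) * (box T.x (spt T.lam w)).card ≤
          (1 - (1 / ((k : ℝ) + 1)) ^ k) * (box T.x (spt T.lam w)).card :=
        mul_le_mul_of_nonneg_right (by linarith) h5
      have h9 : (1 - (1 / ((k : ℝ) + 1)) ^ k) * (box T.x (spt T.lam w)).card ≤
          (1 - (1 / ((k : ℝ) + 1)) ^ k) * D :=
        mul_le_mul_of_nonneg_left h4 (by linarith)
      linarith
  · intro τ w hw h1 i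
    have hτ := hadm τ w hw h1
    obtain ⟨_, _, _, h4, _⟩ := hX τ.card τ hτ le_rfl
    have h5 : |∑ j, L i j * av T.x τ j| ≤ E := by
      have hc : (0 : ℝ) < τ.card := by exact_mod_cast Finset.card_pos.2 hτ.1
      have e1 : ∑ j, L i j * av T.x τ j = (∑ v ∈ τ, ∑ j, L i j * T.x v j) / τ.card := by
        rw [Finset.sum_comm, Finset.sum_div]
        refine Finset.sum_congr rfl fun j _ => ?_
        unfold av
        rw [← Finset.mul_sum]
        ring
      rw [e1, abs_div, abs_of_pos hc, div_le_iff₀ hc]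
      calc |∑ v ∈ τ, ∑ j, L i j * T.x v j| ≤ ∑ v ∈ τ, |∑ j, L i j * T.x v j| :=
            Finset.abs_sum_le_sum_abs _ _
        _ ≤ ∑ _v ∈ τ, E := Finset.sum_le_sum fun v hv =>
            T.lin v w hw (mem_spt.1 (nl_sub (hnn w hw) h1 hv)) i
        _ = E * τ.card := by
            rw [Finset.sum_const, nsmul_eq_mul]
            ring
    have e2 : ∑ j, L i j * X τ j =
        ∑ j, L i j * av T.x τ j + ∑ j, L i j * (X τ j - av T.x τ j) := by
      rw [← Finset.sum_add_distrib]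
      refine Finset.sum_congr rfl fun j _ => ?_
      ring
    rw [e2]
    exact (abs_add_le _ _).trans (add_le_add h5 (h4 i))
  · intro w hwZ hw
    exact ⟨_, mem_spt.2 (nl_spt (hnn w hw) (T.ne w hwZ hw))⟩

end Pool.Agent.Lib.MP_506ba8_co.H4
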