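import Pool.Agent.Lib.MP_506ba8_co.H4.Spencer

set_option autoImplicit false

open Finset

set_option linter.unusedSectionVars false
set_option linter.style.longLine false

namespace Pool.Agent.Lib.MP_506ba8_co.H4

lemma qr_mono {n : ℝ} (hn : 0 ≤ n) {a b : ℝ} (h : a ≤ b) : qr n a ≤ qr n b := by
  unfold qr
  exact Real.sqrt_le_sqrt (Real.sqrt_le_sqrt (mul_le_mul_of_nonneg_left h hn))

lemma qr_scale {n r a b : ℝ} (hn : 0 ≤ n) (hr : 0 ≤ r) (h : a ≤ r ^ 4 * b) :
    qr n a ≤ r * qr n b := by
  have h1 : qr n (r ^ 4 * b) = r * qr n b := by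
    unfold qr
    rw [show n * (r ^ 4 * b) = (r ^ 2) ^ 2 * (n * b) by ring, Real.sqrt_mul (by positivity),
      Real.sqrt_sq (by positivity), Real.sqrt_mul (by positivity), Real.sqrt_sq hr]
  rw [← h1]
  exact qr_mono hn h

/-- Rounding of a point of the cube, all functionals at once (Spencer). -/
theorem rounding {m n : ℕ} {κ : Type} [Fintype κ] (c : κ → Fin m → ℝ) (hc : ∀ i j, |c i j| ≤ 1)
    (hn : Fintype.card κ ≤ n) : ∀ (D : ℕ) (y : Fin m → ℝ), (∀ j, |y j| ≤ 1) →
    (Finset.univ.filter (fun j => |y j| < 1)).card = D → D ≤ n →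
    ∃ x : Fin m → ℝ, (∀ j, x j = 1 ∨ x j = -1) ∧ (∀ j, |y j| = 1 → x j = y j) ∧
      ∀ i, |∑ j, c i j * (x j - y j)| ≤ 400 * qr n D := by
  classical
  intro D
  induction D using Nat.strong_induction_on with
  | _ D ih =>
  intro y hy hD hDn
  rcases Nat.eq_zero_or_pos D with h0 | hpos
  · refine ⟨y, fun j => ?_, fun j _ => rfl, fun i => ?_⟩
    · have h1 : ¬ |y j| < 1 := by
        intro h
        have : j ∈ Finset.univ.filter (fun j => |y j| < 1) := by simp [h]
        rw [h0, Finset.card_eq_zero] at hD
        rw [hD] at this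
        exact absurd this (Finset.notMem_empty j)
      have h2 : |y j| = 1 := le_antisymm (hy j) (not_lt.1 h1)
      rcases abs_cases (y j) with ⟨h, _⟩ | ⟨h, _⟩
      · left; linarith
      · right; linarith
    · simp only [sub_self, mul_zero, Finset.sum_const_zero, abs_zero]
      exact mul_nonneg (by norm_num) (qr_nonneg _ _)
  · -- partial colouring
    have hcard : Fintype.card {j // |y j| < 1} = D := by
      rw [Fintype.card_subtype, hD]
    obtain ⟨z, hz1, hz2, hz3⟩ := partial_col (ι := {j // |y j| < 1})
      (fun i j => c i j.1 * (1 - |y j.1|)) (fun i j => by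
        rw [abs_mul]
        have h1 := hc i j.1
        have h2 : abs (1 - |y j.1|) ≤ 1 := by
          rw [abs_le]
          have := abs_nonneg (y j.1)
          have := hy j.1
          constructor <;> linarith
        exact mul_le_one₀ h1 (abs_nonneg _) h2) hn (by rw [hcard]; exact hpos)
      (by rw [hcard]; exact hDn)
    rw [hcard] at hz2
    -- choice of the sign
    obtain ⟨e, he, hcnt⟩ : ∃ e : ℝ, (e = 1 ∨ e = -1) ∧
        D ≤ 16 * (Finset.univ.filter (fun j : {j // |y j| < 1} =>
          z j ≠ 0 ∧ 0 ≤ e * z j * y j.1)).card := by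
      have h1 : Finset.univ.filter (fun j : {j // |y j| < 1} => z j ≠ 0) ⊆
          Finset.univ.filter (fun j : {j // |y j| < 1} => z j ≠ 0 ∧ 0 ≤ 1 * z j * y j.1) ∪
          Finset.univ.filter (fun j : {j // |y j| < 1} => z j ≠ 0 ∧ 0 ≤ (-1) * z j * y j.1) := by
        intro j hj
        simp only [Finset.mem_union, Finset.mem_filter, Finset.mem_univ, true_and] at hj ⊢
        rcases le_total 0 (z j * y j.1) with h | h
        · left; exact ⟨hj, by linarith⟩
        · right; exact ⟨hj, by linarith⟩
      have h2 := (Finset.card_le_card h1).trans (Finset.card_union_le _ _)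
      by_cases h3 : D ≤ 16 * (Finset.univ.filter (fun j : {j // |y j| < 1} =>
          z j ≠ 0 ∧ 0 ≤ 1 * z j * y j.1)).card
      · exact ⟨1, Or.inl rfl, h3⟩
      · refine ⟨-1, Or.inr rfl, ?_⟩
        omega
    set y' : Fin m → ℝ := fun j => if h : |y j| < 1 then y j + (1 - |y j|) * (e * z ⟨j, h⟩) else y j
      with hy'
    have hez : ∀ j, e * z j = 0 ∨ e * z j = 1 ∨ e * z j = -1 := by
      intro j
      rcases he with rfl | rfl <;> rcases hz1 j with h | h | h <;> rw [h] <;> norm_num
    have hy'1 : ∀ j, |y' j| ≤ 1 := by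
      intro j
      simp only [hy']
      split_ifs with h
      · have h1 := hez ⟨j, h⟩
        rw [abs_le]
        rcases abs_cases (y j) with ⟨h2, _⟩ | ⟨h2, _⟩ <;> rw [h2] at h ⊢ <;>
          rcases h1 with h1 | h1 | h1 <;> rw [h1] <;> constructor <;> linarith
      · exact hy j
    have hy'2 : ∀ j, |y j| = 1 → y' j = y j := by
      intro j hj
      simp only [hy']
      rw [dif_neg]
      rw [hj]
      exact lt_irrefl 1
    have hD' : 16 * (Finset.univ.filter (fun j => |y' j| < 1)).card ≤ 15 * D := by
      have h1 : (Finset.univ.filter (fun j => |y' j| < 1)) ∪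
          (Finset.univ.filter (fun j : {j // |y j| < 1} => z j ≠ 0 ∧ 0 ≤ e * z j * y j.1)).image
            Subtype.val ⊆ Finset.univ.filter (fun j => |y j| < 1) := by
        intro j hj
        rw [Finset.mem_union] at hj
        rw [Finset.mem_filter]
        refine ⟨Finset.mem_univ _, ?_⟩
        rcases hj with hj | hj
        · rw [Finset.mem_filter] at hj
          by_contra h
          have h2 : |y j| = 1 := le_antisymm (hy j) (not_lt.1 h)
          rw [hy'2 j h2, h2] at hj
          exact absurd hj.2 (lt_irrefl 1)
        · rw [Finset.mem_image] at hj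
          obtain ⟨⟨j', hj'⟩, _, rfl⟩ := hj
          exact hj'
      have h2 : Disjoint (Finset.univ.filter (fun j => |y' j| < 1))
          ((Finset.univ.filter (fun j : {j // |y j| < 1} => z j ≠ 0 ∧ 0 ≤ e * z j * y j.1)).image
            Subtype.val) := by
        rw [Finset.disjoint_left]
        intro j hj hj2
        rw [Finset.mem_image] at hj2
        obtain ⟨⟨j', hj'⟩, hj2, rfl⟩ := hj2
        rw [Finset.mem_filter] at hj hj2
        have h3 := hj.2
        simp only [hy'] at h3
        rw [dif_pos hj'] at h3
        obtain ⟨_, h4, h5⟩ := hj2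
        have h6 : e * z ⟨j', hj'⟩ ≠ 0 := by
          apply mul_ne_zero _ h4
          rcases he with rfl | rfl <;> norm_num
        have h7 := hez ⟨j', hj'⟩
        simp only at h5
        rw [abs_lt] at h3
        rcases h7 with h7 | h7 | h7
        · exact h6 h7
        · rw [h7] at h3 h5
          have h8 : 0 ≤ y j' := by linarith
          rw [abs_of_nonneg h8] at h3
          linarith [h3.2]
        · rw [h7] at h3 h5
          have h8 : y j' ≤ 0 := by linarith
          rw [abs_of_nonpos h8] at h3
          linarith [h3.1]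
      have h3 := Finset.card_le_card h1
      rw [Finset.card_union_of_disjoint h2, hD, Finset.card_image_of_injective _
        Subtype.val_injective] at h3
      omega
    obtain ⟨x, hx1, hx2, hx3⟩ := ih (Finset.univ.filter (fun j => |y' j| < 1)).card (by omega) y'
      hy'1 rfl (by omega)
    refine ⟨x, hx1, fun j hj => ?_, fun i => ?_⟩
    · rw [hx2 j (by rw [hy'2 j hj, hj]), hy'2 j hj]
    · have h1 : ∑ j, c i j * (x j - y j) =
          ∑ j, c i j * (x j - y' j) + ∑ j, c i j * (y' j - y j) := by
        rw [← Finset.sum_add_distrib]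
        refine Finset.sum_congr rfl fun j _ => ?_
        ring
      have h2 : ∑ j, c i j * (y' j - y j) =
          e * ∑ j : {j // |y j| < 1}, c i j.1 * (1 - |y j.1|) * z j := by
        have h3 : ∑ j, c i j * (y' j - y j) =
            ∑ j ∈ Finset.univ.filter (fun j => |y j| < 1), c i j * (y' j - y j) := by
          symm
          apply Finset.sum_subset (Finset.filter_subset _ _)
          intro j _ hj
          have h4 : ¬ |y j| < 1 := by
            intro h
            exact hj (by simp [h])
          rw [hy'2 j (le_antisymm (hy j) (not_lt.1 h4))]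
          ring
        rw [h3, Finset.sum_subtype (Finset.univ.filter (fun j => |y j| < 1))
          (p := fun j => |y j| < 1) (by intro j; simp), Finset.mul_sum]
        refine Finset.sum_congr rfl fun j _ => ?_
        have h4 : y' j.1 = y j.1 + (1 - |y j.1|) * (e * z j) := by
          simp only [hy']
          rw [dif_pos j.2]
        rw [h4]
        ring
      have h3 := hz3 i
      rw [hcard] at h3
      have h4 := hx3 i
      have h5 : qr n ((Finset.univ.filter (fun j => |y' j| < 1)).card : ℕ) ≤ 197 / 200 * qr n D := by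
        apply qr_scale (Nat.cast_nonneg n) (by norm_num)
        have h6 : (16 : ℝ) * ((Finset.univ.filter (fun j => |y' j| < 1)).card : ℕ) ≤ 15 * D := by
          exact_mod_cast hD'
        have h7 : (0 : ℝ) ≤ D := Nat.cast_nonneg D
        norm_num
        linarith
      have h6 : |e * ∑ j : {j // |y j| < 1}, c i j.1 * (1 - |y j.1|) * z j| ≤ 6 * qr n D := by
        rw [abs_mul]
        have : |e| = 1 := by rcases he with rfl | rfl <;> norm_num
        rw [this, one_mul]
        exact h3
      rw [h1, h2]
      calc _ ≤ _ := abs_add_le _ _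
        _ ≤ 400 * qr n ((Finset.univ.filter (fun j => |y' j| < 1)).card : ℕ) + 6 * qr n D :=
          add_le_add h4 h6
        _ ≤ 400 * qr n D := by linarith

end Pool.Agent.Lib.MP_506ba8_co.H4
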