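import Mathlib

/-!
# Spencer's partial colouring with error `K (n D)^(1/4)` and its affine iteration
-/

set_option autoImplicit false

open Finset

set_option linter.unusedSectionVars false
set_option linter.style.longLine false

namespace Pool.Agent.Lib.MP_506ba8_co.H4

/-- signs -/
noncomputable def sg (b : Bool) : ℝ := if b then 1 else -1

section part

variable {ι κ : Type} [Fintype ι] [DecidableEq ι] [Fintype κ]

/-- value of a functional -/
noncomputable def fv (c : ι → ℝ) (x : ι → Bool) : ℝ := ∑ j, c j * sg (x j)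

lemma sum_exp (c : ι → ℝ) (η : ℝ) : ∑ x : ι → Bool, Real.exp (η * fv c x) =
    ∏ j, (Real.exp (η * c j) + Real.exp (-(η * c j))) := by
  have h1 : ∀ j, (Real.exp (η * c j) + Real.exp (-(η * c j))) =
      ∑ b : Bool, Real.exp (η * (c j * sg b)) := by
    intro j
    rw [Fintype.sum_bool]
    simp [sg]
  simp_rw [h1]
  rw [Finset.prod_univ_sum, Fintype.piFinset_univ]
  refine Finset.sum_congr rfl fun x _ => ?_
  rw [← Real.exp_sum, fv, Finset.mul_sum]

lemma sum_exp_le (c : ι → ℝ) (hc : ∀ j, |c j| ≤ 1) (η : ℝ) :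
    ∑ x : ι → Bool, Real.exp (η * fv c x) ≤
      2 ^ Fintype.card ι * Real.exp (η ^ 2 * Fintype.card ι / 2) := by
  rw [sum_exp]
  have h1 : ∀ j ∈ (Finset.univ : Finset ι), (Real.exp (η * c j) + Real.exp (-(η * c j))) ≤
      2 * Real.exp (η ^ 2 / 2) := by
    intro j _
    have h2 := Real.cosh_le_exp_half_sq (η * c j)
    rw [Real.cosh_eq] at h2
    have h3 : Real.exp ((η * c j) ^ 2 / 2) ≤ Real.exp (η ^ 2 / 2) := by
      apply Real.exp_le_exp.2
      have := (sq_le_one_iff_abs_le_one _).2 (hc j)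
      have h4 : (η * c j) ^ 2 ≤ η ^ 2 := by
        rw [mul_pow]
        nlinarith [sq_nonneg η]
      linarith
    linarith
  calc _ ≤ ∏ _j : ι, (2 * Real.exp (η ^ 2 / 2)) :=
        Finset.prod_le_prod (fun j _ => by positivity) h1
    _ = (2 * Real.exp (η ^ 2 / 2)) ^ Fintype.card ι := by
        rw [Finset.prod_const, Finset.card_univ]
    _ = _ := by
        rw [mul_pow, ← Real.exp_nat_mul]
        congr 2
        ring

/-- rounded value -/
noncomputable def bb (L : ℝ) (c : ι → ℝ) (x : ι → Bool) : ℤ := ⌊fv c x / (2 * L) + 1 / 2⌋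

lemma abs_bb_le {L η : ℝ} (hL : 0 < L) (hη : 1 ≤ η * L) (c : ι → ℝ) (x : ι → Bool) :
    |(bb L c x : ℝ)| ≤ Real.exp (-(η * L)) *
      (Real.exp (η * fv c x) + Real.exp ((-η) * fv c x)) := by
  set f := fv c x with hf
  have hη0 : 0 < η := by
    by_contra h
    push Not at h
    nlinarith
  by_cases h : |f| < L
  · have h0 : bb L c x = 0 := by
      rw [bb, Int.floor_eq_zero_iff]
      rw [abs_lt] at h
      constructor
      · have : -(1 / 2) ≤ f / (2 * L) := by
          rw [le_div_iff₀ (by linarith)]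
          linarith
        linarith
      · have : f / (2 * L) < 1 / 2 := by
          rw [div_lt_iff₀ (by linarith)]
          linarith
        linarith
    rw [h0]
    simp only [Int.cast_zero, abs_zero]
    positivity
  · push Not at h
    have h1 : |(bb L c x : ℝ)| ≤ |f| / (2 * L) + 1 / 2 := by
      have e1 := Int.floor_le (f / (2 * L) + 1 / 2)
      have e2 := Int.lt_floor_add_one (f / (2 * L) + 1 / 2)
      have e3 : |f| / (2 * L) = |f / (2 * L)| := by
        rw [abs_div, abs_of_pos (by linarith : (0:ℝ) < 2 * L)]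
      rw [e3, abs_le]
      have e4 := neg_abs_le (f / (2 * L))
      have e5 := le_abs_self (f / (2 * L))
      unfold bb
      constructor <;> linarith
    have h2 : |f| / (2 * L) + 1 / 2 ≤ |f| / L := by
      have e1 : 1 ≤ |f| / L := by
        rw [le_div_iff₀ hL]
        linarith
      have e2 : |f| / (2 * L) = (|f| / L) / 2 := by
        field_simp
      rw [e2]
      linarith
    have h3 : |f| / L ≤ Real.exp (|f| / L - 1) := by
      have := Real.add_one_le_exp (|f| / L - 1)
      linarith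
    have h4 : |f| / L - 1 ≤ η * |f| - η * L := by
      have e1 : |f| / L - 1 = (|f| - L) / L := by
        field_simp
      have e2 : (|f| - L) / L ≤ η * (|f| - L) := by
        rw [div_le_iff₀ hL]
        nlinarith
      rw [e1]
      linarith
    have h5 : Real.exp (η * |f| - η * L) = Real.exp (-(η * L)) * Real.exp (η * |f|) := by
      rw [← Real.exp_add]
      congr 1
      ring
    have h6 : Real.exp (η * |f|) ≤ Real.exp (η * f) + Real.exp ((-η) * f) := by
      rcases abs_cases f with ⟨e, _⟩ | ⟨e, _⟩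
      · rw [e]
        have := Real.exp_pos ((-η) * f)
        linarith
      · rw [e]
        have e1 : η * -f = (-η) * f := by ring
        rw [e1]
        have := Real.exp_pos (η * f)
        linarith
    calc |(bb L c x : ℝ)| ≤ Real.exp (|f| / L - 1) := h1.trans (h2.trans h3)
      _ ≤ Real.exp (η * |f| - η * L) := Real.exp_le_exp.2 h4
      _ = Real.exp (-(η * L)) * Real.exp (η * |f|) := h5
      _ ≤ _ := mul_le_mul_of_nonneg_left h6 (Real.exp_pos _).le

lemma sum_bb_le {L : ℝ} (hL : 0 < L) (hD : 0 < Fintype.card ι)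
    (hLD : (Fintype.card ι : ℝ) ≤ L ^ 2) (c : ι → ℝ) (hc : ∀ j, |c j| ≤ 1) :
    ∑ x : ι → Bool, |(bb L c x : ℝ)| ≤
      2 ^ Fintype.card ι * (2 * Real.exp (-(L ^ 2 / (2 * Fintype.card ι)))) := by
  set D : ℝ := (Fintype.card ι : ℝ) with hDdef
  have hD' : 0 < D := by rw [hDdef]; exact_mod_cast hD
  set η := L / D with hη
  have h1 : 1 ≤ η * L := by
    rw [hη, div_mul_eq_mul_div, le_div_iff₀ hD']
    nlinarith
  have h2 : ∑ x : ι → Bool, |(bb L c x : ℝ)| ≤ Real.exp (-(η * L)) *
      (∑ x : ι → Bool, Real.exp (η * fv c x) + ∑ x : ι → Bool, Real.exp ((-η) * fv c x)) := by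
    rw [← Finset.sum_add_distrib, Finset.mul_sum]
    exact Finset.sum_le_sum fun x _ => abs_bb_le hL h1 c x
  have h3 := sum_exp_le c hc η
  have h4 := sum_exp_le c hc (-η)
  rw [neg_sq] at h4
  rw [← hDdef] at h3 h4
  have h5 : Real.exp (-(L ^ 2 / (2 * D))) = Real.exp (-(η * L)) * Real.exp (η ^ 2 * D / 2) := by
    rw [← Real.exp_add]
    congr 1
    rw [hη]
    field_simp
    ring
  calc _ ≤ _ := h2
    _ ≤ Real.exp (-(η * L)) * (2 ^ Fintype.card ι * Real.exp (η ^ 2 * D / 2) +
          2 ^ Fintype.card ι * Real.exp (η ^ 2 * D / 2)) := by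
        apply mul_le_mul_of_nonneg_left _ (Real.exp_pos _).le
        linarith
    _ = _ := by
        rw [h5]
        ring

/-- geometric sum over the integers -/
lemma geom_int {γ : ℝ} (H : ℕ) :
    (1 - γ) * ∑ s ∈ Finset.Icc (-(H : ℤ)) H, γ ^ s.natAbs = 1 + γ - 2 * γ ^ (H + 1) := by
  induction H with
  | zero => simp; ring
  | succ H ih =>
    have h1 : Finset.Icc (-((H + 1 : ℕ) : ℤ)) ((H + 1 : ℕ) : ℤ) =
        insert ((H + 1 : ℕ) : ℤ) (insert (-((H + 1 : ℕ) : ℤ)) (Finset.Icc (-(H : ℤ)) H)) := by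
      ext s
      simp only [Finset.mem_Icc, Finset.mem_insert]
      push_cast
      omega
    rw [h1, Finset.sum_insert, Finset.sum_insert]
    · rw [Int.natAbs_neg, Int.natAbs_natCast, mul_add, mul_add, ih]
      ring
    · simp only [Finset.mem_Icc, not_and, not_le]
      push_cast
      omega
    · simp only [Finset.mem_Icc, Finset.mem_insert, not_or, not_and, not_le]
      push_cast
      omega

/-- sum of the product weights over a finite set of integer vectors -/
lemma sum_weights {γ : ℝ} (h0 : 0 ≤ γ) (h1 : γ < 1) (s : Finset (κ → ℤ)) [DecidableEq κ] :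
    ∑ b ∈ s, ∏ i, ((1 - γ) / (1 + γ) * γ ^ (b i).natAbs) ≤ 1 := by
  obtain ⟨H, hH⟩ : ∃ H : ℕ, ∀ b ∈ s, ∀ i, |b i| ≤ H := by
    refine ⟨(s.sup fun b => Finset.univ.sup fun i => (b i).natAbs), fun b hb i => ?_⟩
    have h1 : (b i).natAbs ≤ Finset.univ.sup fun i => (b i).natAbs :=
      Finset.le_sup (f := fun i => (b i).natAbs) (Finset.mem_univ i)
    have h2 : (Finset.univ.sup fun i => (b i).natAbs) ≤
        s.sup fun b => Finset.univ.sup fun i => (b i).natAbs :=
      Finset.le_sup (f := fun b : κ → ℤ => Finset.univ.sup fun i => (b i).natAbs) hb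
    rw [Int.abs_eq_natAbs]
    exact_mod_cast h1.trans h2
  have hw : ∀ b : κ → ℤ, 0 ≤ ∏ i, ((1 - γ) / (1 + γ) * γ ^ (b i).natAbs) := by
    intro b
    refine Finset.prod_nonneg fun i _ => ?_
    have : 0 ≤ (1 - γ) / (1 + γ) := div_nonneg (by linarith) (by linarith)
    positivity
  have hsub : s ⊆ Fintype.piFinset fun _ : κ => Finset.Icc (-(H : ℤ)) H := by
    intro b hb
    rw [Fintype.mem_piFinset]
    intro i
    rw [Finset.mem_Icc]
    have := abs_le.1 (hH b hb i)
    exact ⟨this.1, this.2⟩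
  calc _ ≤ ∑ b ∈ Fintype.piFinset fun _ : κ => Finset.Icc (-(H : ℤ)) H,
        ∏ i, ((1 - γ) / (1 + γ) * γ ^ (b i).natAbs) :=
        Finset.sum_le_sum_of_subset_of_nonneg hsub fun b _ _ => hw b
    _ = ∏ _i : κ, ∑ t ∈ Finset.Icc (-(H : ℤ)) H, ((1 - γ) / (1 + γ) * γ ^ t.natAbs) := by
        rw [Finset.prod_univ_sum]
    _ ≤ ∏ _i : κ, (1 : ℝ) := by
        refine Finset.prod_le_prod (fun i _ => ?_) (fun i _ => ?_)
        · refine Finset.sum_nonneg fun t _ => ?_
          have : 0 ≤ (1 - γ) / (1 + γ) := div_nonneg (by linarith) (by linarith)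
          positivity
        · rw [← Finset.mul_sum, div_mul_eq_mul_div, geom_int, div_le_one (by linarith)]
          have : 0 ≤ γ ^ (H + 1) := by positivity
          linarith
    _ = 1 := by simp

/-- points near `x` -/
lemma near_card (x : ι → Bool) : (((Finset.univ.filter (fun y : ι → Bool =>
      8 * (Finset.univ.filter (fun j => x j ≠ y j)).card ≤ Fintype.card ι)).card : ℕ) : ℝ) ≤
      (117 / 80) ^ Fintype.card ι := by
  classical
  set D := Fintype.card ι with hD
  have h1 : ∀ y : ι → Bool, ((1 : ℝ) / 8) ^ (Finset.univ.filter (fun j => x j ≠ y j)).card =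
      ∏ j, (if x j = y j then (1 : ℝ) else 1 / 8) := by
    intro y
    rw [Finset.prod_ite, Finset.prod_const_one, one_mul, Finset.prod_const]
  have h2 : ∑ y : ι → Bool, ((1 : ℝ) / 8) ^ (Finset.univ.filter (fun j => x j ≠ y j)).card =
      (9 / 8) ^ D := by
    simp_rw [h1]
    have e1 : ∀ j, ∑ b : Bool, (if x j = b then (1 : ℝ) else 1 / 8) = 9 / 8 := by
      intro j
      rw [Fintype.sum_bool]
      cases x j <;> norm_num
    have e2 := Finset.prod_univ_sum (fun _ : ι => (Finset.univ : Finset Bool))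
      (fun j b => (if x j = b then (1 : ℝ) else 1 / 8))
    rw [Fintype.piFinset_univ] at e2
    rw [← e2]
    simp_rw [e1]
    rw [Finset.prod_const, Finset.card_univ]
  have h3 : ∀ y ∈ Finset.univ.filter (fun y : ι → Bool =>
      8 * (Finset.univ.filter (fun j => x j ≠ y j)).card ≤ D), (1 : ℝ) ≤
      8 ^ (D / 8) * ((1 : ℝ) / 8) ^ (Finset.univ.filter (fun j => x j ≠ y j)).card := by
    intro y hy
    rw [Finset.mem_filter] at hy
    have e1 : (Finset.univ.filter (fun j => x j ≠ y j)).card ≤ D / 8 := by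
      rw [Nat.le_div_iff_mul_le (by norm_num)]
      linarith [hy.2]
    have e2 : (1 : ℝ) = 8 ^ (Finset.univ.filter (fun j => x j ≠ y j)).card *
        ((1 : ℝ) / 8) ^ (Finset.univ.filter (fun j => x j ≠ y j)).card := by
      rw [← mul_pow]
      norm_num
    conv_lhs => rw [e2]
    apply mul_le_mul_of_nonneg_right _ (by positivity)
    exact pow_le_pow_right₀ (by norm_num) e1
  have h4 : (8 : ℝ) ^ (D / 8) ≤ (13 / 10) ^ D := by
    calc (8 : ℝ) ^ (D / 8) ≤ ((13 / 10) ^ 8) ^ (D / 8) := by
          apply pow_le_pow_left₀ (by norm_num)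
          norm_num
      _ = (13 / 10) ^ (8 * (D / 8)) := by rw [pow_mul]
      _ ≤ (13 / 10) ^ D := pow_le_pow_right₀ (by norm_num) (Nat.mul_div_le D 8)
  calc _ = ∑ y ∈ Finset.univ.filter (fun y : ι → Bool =>
        8 * (Finset.univ.filter (fun j => x j ≠ y j)).card ≤ D), (1 : ℝ) := by simp
    _ ≤ ∑ y ∈ Finset.univ.filter (fun y : ι → Bool =>
        8 * (Finset.univ.filter (fun j => x j ≠ y j)).card ≤ D),
        8 ^ (D / 8) * ((1 : ℝ) / 8) ^ (Finset.univ.filter (fun j => x j ≠ y j)).card :=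
        Finset.sum_le_sum h3
    _ ≤ ∑ y : ι → Bool,
        8 ^ (D / 8) * ((1 : ℝ) / 8) ^ (Finset.univ.filter (fun j => x j ≠ y j)).card :=
        Finset.sum_le_sum_of_subset_of_nonneg (Finset.filter_subset _ _)
          fun y _ _ => by positivity
    _ = 8 ^ (D / 8) * (9 / 8) ^ D := by rw [← Finset.mul_sum, h2]
    _ ≤ (13 / 10) ^ D * (9 / 8) ^ D := mul_le_mul_of_nonneg_right h4 (by positivity)
    _ = (117 / 80) ^ D := by rw [← mul_pow]; norm_num

/-- the fourth root of `n D` -/
noncomputable def qr (n D : ℝ) : ℝ := Real.sqrt (Real.sqrt (n * D))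

lemma qr_nonneg (n D : ℝ) : 0 ≤ qr n D := Real.sqrt_nonneg _

lemma one_le_qr {n D : ℕ} (hD : 0 < D) (hDn : D ≤ n) : 1 ≤ qr n D := by
  have h1 : (1 : ℝ) ≤ n * D := by
    have e1 : (1 : ℝ) ≤ D := by exact_mod_cast hD
    have e2 : (D : ℝ) ≤ n := by exact_mod_cast hDn
    nlinarith
  unfold qr
  rw [Real.one_le_sqrt, Real.one_le_sqrt]
  exact h1

lemma numeric_u {u : ℝ} (hu : 1 ≤ u) :
    4 * u ^ 2 * Real.exp (-(18 * u)) * Real.log (60 * u ^ 2) ≤ 1 / 20 := by
  have h1 : Real.log (60 * u ^ 2) ≤ 60 * u ^ 2 := by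
    have := Real.log_le_sub_one_of_pos (show 0 < 60 * u ^ 2 by positivity)
    linarith
  have h2 : u ≤ Real.exp u := by
    have := Real.add_one_le_exp u
    linarith
  have h3 : u ^ 4 ≤ Real.exp (4 * u) := by
    have : Real.exp (4 * u) = (Real.exp u) ^ 4 := by
      rw [← Real.exp_nat_mul]
      norm_num
    rw [this]
    exact pow_le_pow_left₀ (by linarith) h2 4
  have h4 : Real.exp (-(18 * u)) * u ^ 4 ≤ Real.exp (-14) := by
    calc Real.exp (-(18 * u)) * u ^ 4 ≤ Real.exp (-(18 * u)) * Real.exp (4 * u) :=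
          mul_le_mul_of_nonneg_left h3 (Real.exp_pos _).le
      _ = Real.exp (-(14 * u)) := by
          rw [← Real.exp_add]
          congr 1
          ring
      _ ≤ Real.exp (-14) := Real.exp_le_exp.2 (by linarith)
  have h5 : Real.exp (-14) ≤ 1 / 4800 := by
    rw [Real.exp_neg, inv_eq_one_div]
    apply one_div_le_one_div_of_le (by norm_num)
    have e1 : (2 : ℝ) ≤ Real.exp 1 := by
      have := Real.add_one_le_exp (1 : ℝ)
      linarith
    calc (4800 : ℝ) ≤ 2 ^ 14 := by norm_num
      _ ≤ (Real.exp 1) ^ 14 := pow_le_pow_left₀ (by norm_num) e1 14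
      _ = Real.exp 14 := by
          rw [← Real.exp_nat_mul]
          norm_num
  have h0 : 0 ≤ 4 * u ^ 2 * Real.exp (-(18 * u)) := by positivity
  calc 4 * u ^ 2 * Real.exp (-(18 * u)) * Real.log (60 * u ^ 2)
      ≤ 4 * u ^ 2 * Real.exp (-(18 * u)) * (60 * u ^ 2) := mul_le_mul_of_nonneg_left h1 h0
    _ = 240 * (Real.exp (-(18 * u)) * u ^ 4) := by ring
    _ ≤ 240 * (1 / 4800) := by
        apply mul_le_mul_of_nonneg_left _ (by norm_num)
        exact h4.trans h5
    _ = 1 / 20 := by norm_num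

/-- Spencer's partial colouring. -/
theorem partial_col [DecidableEq κ] {n : ℕ} (c : κ → ι → ℝ) (hc : ∀ i j, |c i j| ≤ 1)
    (hn : Fintype.card κ ≤ n) (hD : 0 < Fintype.card ι) (hDn : Fintype.card ι ≤ n) :
    ∃ z : ι → ℝ, (∀ j, z j = 0 ∨ z j = 1 ∨ z j = -1) ∧
      Fintype.card ι ≤ 8 * (Finset.univ.filter (fun j => z j ≠ 0)).card ∧
      ∀ i, |∑ j, c i j * z j| ≤ 6 * qr n (Fintype.card ι) := by
  classical
  set D := Fintype.card ι with hDdef
  have hq1 := one_le_qr hD hDn
  by_cases hD4 : D < 4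
  · refine ⟨fun _ => 1, fun _ => Or.inr (Or.inl rfl), ?_, fun i => ?_⟩
    · simp only [ne_eq, one_ne_zero, not_false_eq_true, Finset.filter_true, Finset.card_univ]
      omega
    · calc |∑ j, c i j * 1| ≤ ∑ j, |c i j * 1| := Finset.abs_sum_le_sum_abs _ _
        _ ≤ ∑ _j : ι, (1 : ℝ) := Finset.sum_le_sum fun j _ => by
            rw [mul_one]
            exact hc i j
        _ = D := by simp [hDdef]
        _ ≤ 6 * qr n D := by
            have : (D : ℝ) < 4 := by exact_mod_cast hD4
            linarith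
  push Not at hD4
  -- parameters
  have hDr : (0 : ℝ) < D := by exact_mod_cast hD
  have hnr : (D : ℝ) ≤ n := by exact_mod_cast hDn
  have hn0 : (0 : ℝ) < n := by linarith
  set u : ℝ := Real.sqrt (n / D) with hu
  have hu2 : u ^ 2 = n / D := Real.sq_sqrt (by positivity)
  have hu1 : 1 ≤ u := by
    rw [hu, Real.one_le_sqrt, le_div_iff₀ hDr]
    linarith
  set L : ℝ := 6 * qr n D with hL
  have hL0 : 0 < L := by
    rw [hL]
    linarith
  have hL2 : L ^ 2 = 36 * (D * u) := by
    have e1 : (qr n D) ^ 2 = Real.sqrt (n * D) := by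
      unfold qr
      exact Real.sq_sqrt (Real.sqrt_nonneg _)
    have e2 : Real.sqrt (n * D) = D * u := by
      rw [hu, show (n : ℝ) * D = D ^ 2 * (n / D) by field_simp, Real.sqrt_mul (by positivity),
        Real.sqrt_sq hDr.le]
    rw [hL, mul_pow, e1, e2]
    norm_num
  have hLD : (D : ℝ) ≤ L ^ 2 := by
    rw [hL2]
    nlinarith
  have hLu : L ^ 2 / (2 * D) = 18 * u := by
    rw [hL2]
    field_simp
    norm_num
  set γ : ℝ := D / (60 * n) with hγ
  have hγ0 : 0 < γ := by positivity
  have hγ1 : γ ≤ 1 / 60 := by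
    rw [hγ, div_le_div_iff₀ (by positivity) (by norm_num)]
    nlinarith
  set b : (ι → Bool) → κ → ℤ := fun x i => bb L (c i) x with hb
  set w : (κ → ℤ) → ℝ := fun t => ∏ i, ((1 - γ) / (1 + γ) * γ ^ (t i).natAbs) with hw
  by_contra hcon
  push Not at hcon
  -- classes are small
  have hcl : ∀ x y : ι → Bool, b x = b y →
      8 * (Finset.univ.filter (fun j => x j ≠ y j)).card ≤ D := by
    intro x y hxy
    by_contra h
    push Not at h
    set z : ι → ℝ := fun j => (sg (x j) - sg (y j)) / 2 with hz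
    have hzv : ∀ j, (x j = y j ∧ z j = 0) ∨ (x j ≠ y j ∧ (z j = 1 ∨ z j = -1)) := by
      intro j
      simp only [hz, sg]
      cases x j <;> cases y j <;> norm_num
    obtain ⟨i, hi⟩ := hcon z (fun j => by rcases hzv j with h | h <;> tauto) (by
      have : Finset.univ.filter (fun j => x j ≠ y j) = Finset.univ.filter (fun j => z j ≠ 0) := by
        apply Finset.filter_congr
        intro j _
        rcases hzv j with ⟨h1, h2⟩ | ⟨h1, h2⟩
        · simp [h1, h2]
        · simp only [h1, not_false_eq_true, ne_eq, true_iff]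
          rcases h2 with h2 | h2 <;> rw [h2] <;> norm_num
      rw [← this]
      omega)
    have e1 : ∑ j, c i j * z j = (fv (c i) x - fv (c i) y) / 2 := by
      rw [fv, fv, ← Finset.sum_sub_distrib, Finset.sum_div]
      refine Finset.sum_congr rfl fun j _ => ?_
      simp only [hz]
      ring
    have e2 : bb L (c i) x = bb L (c i) y := congrFun hxy i
    have e3 := Int.abs_sub_lt_one_of_floor_eq_floor e2
    have e4 : fv (c i) x / (2 * L) + 1 / 2 - (fv (c i) y / (2 * L) + 1 / 2) =
        (fv (c i) x - fv (c i) y) / (2 * L) := by ring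
    rw [e4, abs_div, abs_of_pos (by linarith : (0 : ℝ) < 2 * L), div_lt_one (by linarith)] at e3
    rw [e1, abs_div, abs_of_pos (by norm_num : (0 : ℝ) < 2)] at hi
    linarith
  -- upper bound
  have hup : ∑ x : ι → Bool, w (b x) ≤ (117 / 80) ^ D := by
    have h1 : ∑ x : ι → Bool, w (b x) =
        ∑ t ∈ Finset.univ.image b, ∑ x ∈ Finset.univ.filter (fun x => b x = t), w (b x) := by
      rw [Finset.sum_fiberwise_of_maps_to (fun x _ => Finset.mem_image_of_mem b (Finset.mem_univ x))]
    rw [h1]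
    have h2 : ∀ t ∈ Finset.univ.image b,
        ∑ x ∈ Finset.univ.filter (fun x => b x = t), w (b x) ≤ (117 / 80) ^ D * w t := by
      intro t ht
      obtain ⟨x, _, rfl⟩ := Finset.mem_image.1 ht
      have h3 : ∑ y ∈ Finset.univ.filter (fun y => b y = b x), w (b y) =
          (Finset.univ.filter (fun y => b y = b x)).card * w (b x) := by
        rw [Finset.sum_congr rfl (fun y hy => by rw [(Finset.mem_filter.1 hy).2]),
          Finset.sum_const, nsmul_eq_mul]
      rw [h3]
      have hw0 : 0 ≤ w (b x) := by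
        refine Finset.prod_nonneg fun i _ => ?_
        have : 0 ≤ (1 - γ) / (1 + γ) := div_nonneg (by linarith) (by linarith)
        positivity
      apply mul_le_mul_of_nonneg_right _ hw0
      refine le_trans ?_ (near_card x)
      exact_mod_cast Finset.card_le_card (fun y hy => by
        rw [Finset.mem_filter] at hy ⊢
        exact ⟨hy.1, hcl x y hy.2.symm⟩)
    calc _ ≤ ∑ t ∈ Finset.univ.image b, (117 / 80) ^ D * w t := Finset.sum_le_sum h2
      _ = (117 / 80) ^ D * ∑ t ∈ Finset.univ.image b, w t := by rw [Finset.mul_sum]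
      _ ≤ (117 / 80) ^ D * 1 := by
          apply mul_le_mul_of_nonneg_left _ (by positivity)
          exact sum_weights hγ0.le (by linarith) _
      _ = _ := mul_one _
  -- lower bound
  set T : ℝ := 4 * n * Real.exp (-(18 * u)) with hT
  have hT0 : 0 < T := by positivity
  set Bx : (ι → Bool) → ℝ := fun x => ∑ i, |(b x i : ℝ)| with hBx
  have hBsum : ∑ x : ι → Bool, Bx x ≤ 2 ^ D * (T / 2) := by
    simp only [hBx]
    rw [Finset.sum_comm]
    calc _ ≤ ∑ _i : κ, 2 ^ D * (2 * Real.exp (-(L ^ 2 / (2 * D)))) :=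
          Finset.sum_le_sum fun i _ => sum_bb_le hL0 hD hLD (c i) (hc i)
      _ = Fintype.card κ * (2 ^ D * (2 * Real.exp (-(18 * u)))) := by
          rw [Finset.sum_const, Finset.card_univ, nsmul_eq_mul, hLu]
      _ ≤ n * (2 ^ D * (2 * Real.exp (-(18 * u)))) := by
          apply mul_le_mul_of_nonneg_right _ (by positivity)
          exact_mod_cast hn
      _ = _ := by rw [hT]; ring
  have hgood : (2 : ℝ) ^ D / 2 ≤ ((Finset.univ.filter (fun x => Bx x ≤ T)).card : ℝ) := by
    have h1 : ((Finset.univ.filter (fun x => ¬ Bx x ≤ T)).card : ℝ) * T ≤ 2 ^ D * (T / 2) := by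
      calc _ = ∑ x ∈ Finset.univ.filter (fun x => ¬ Bx x ≤ T), T := by
            rw [Finset.sum_const, nsmul_eq_mul]
        _ ≤ ∑ x ∈ Finset.univ.filter (fun x => ¬ Bx x ≤ T), Bx x := by
            refine Finset.sum_le_sum fun x hx => ?_
            have := (Finset.mem_filter.1 hx).2
            linarith [not_le.1 this]
        _ ≤ ∑ x, Bx x := Finset.sum_le_sum_of_subset_of_nonneg (Finset.filter_subset _ _)
            fun x _ _ => Finset.sum_nonneg fun i _ => abs_nonneg _
        _ ≤ _ := hBsum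
    have h2 : ((Finset.univ.filter (fun x => Bx x ≤ T)).card : ℝ) +
        ((Finset.univ.filter (fun x => ¬ Bx x ≤ T)).card : ℝ) = 2 ^ D := by
      have := Finset.card_filter_add_card_filter_not (s := (Finset.univ : Finset (ι → Bool)))
        (fun x => Bx x ≤ T)
      rw [Finset.card_univ, Fintype.card_fun, Fintype.card_bool] at this
      exact_mod_cast this
    have h3 : ((Finset.univ.filter (fun x => ¬ Bx x ≤ T)).card : ℝ) ≤ 2 ^ D / 2 := by
      refine le_of_mul_le_mul_right ?_ hT0
      linarith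
    linarith
  have hwlow : ∀ x, Bx x ≤ T → Real.exp (-(D / 10)) ≤ w (b x) := by
    intro x hx
    simp only [hw]
    rw [Finset.prod_mul_distrib, Finset.prod_const, Finset.card_univ, Finset.prod_pow_eq_pow_sum]
    have h1 : Real.exp (-(D / 20)) ≤ ((1 - γ) / (1 + γ)) ^ Fintype.card κ := by
      have e1 : Real.exp (-(3 * γ)) ≤ (1 - γ) / (1 + γ) := by
        rw [Real.exp_neg, inv_eq_one_div, div_le_div_iff₀ (Real.exp_pos _) (by linarith)]
        have e2 := Real.add_one_le_exp (3 * γ)
        have e3 : (1 - γ) * (3 * γ + 1) ≤ (1 - γ) * Real.exp (3 * γ) :=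
          mul_le_mul_of_nonneg_left e2 (by linarith)
        nlinarith
      calc Real.exp (-(D / 20)) = Real.exp (n * (-(3 * γ))) := by
            congr 1
            rw [hγ]
            field_simp
            norm_num
        _ ≤ Real.exp (Fintype.card κ * (-(3 * γ))) := by
            apply Real.exp_le_exp.2
            have : (Fintype.card κ : ℝ) ≤ n := by exact_mod_cast hn
            nlinarith
        _ = (Real.exp (-(3 * γ))) ^ Fintype.card κ := by rw [← Real.exp_nat_mul]
        _ ≤ _ := pow_le_pow_left₀ (Real.exp_pos _).le e1 _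
    have h2 : Real.exp (-(D / 20)) ≤ γ ^ (∑ i, (b x i).natAbs) := by
      have e1 : ((∑ i, (b x i).natAbs : ℕ) : ℝ) = Bx x := by
        simp only [hBx]
        push_cast
        refine Finset.sum_congr rfl fun i _ => ?_
        rw [Nat.cast_natAbs, Int.cast_abs]
      have e2 : γ ^ (∑ i, (b x i).natAbs) = Real.exp (Bx x * Real.log γ) := by
        rw [← e1, Real.exp_nat_mul, Real.exp_log hγ0]
      rw [e2]
      apply Real.exp_le_exp.2
      have e3 : Real.log γ = -Real.log (60 * u ^ 2) := by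
        rw [hu2, ← Real.log_inv]
        congr 1
        rw [hγ]
        field_simp
      have e4 : 0 ≤ Real.log (60 * u ^ 2) := by
        apply Real.log_nonneg
        nlinarith
      rw [e3]
      have e5 : Bx x * Real.log (60 * u ^ 2) ≤ T * Real.log (60 * u ^ 2) :=
        mul_le_mul_of_nonneg_right hx e4
      have e6 : T * Real.log (60 * u ^ 2) =
          D * (4 * u ^ 2 * Real.exp (-(18 * u)) * Real.log (60 * u ^ 2)) := by
        rw [hT]
        have : (n : ℝ) = D * u ^ 2 := by
          rw [hu2]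
          field_simp
        conv_lhs => rw [this]
        ring
      have e7 := mul_le_mul_of_nonneg_left (numeric_u hu1) hDr.le
      linarith
    calc Real.exp (-(D / 10)) = Real.exp (-(D / 20)) * Real.exp (-(D / 20)) := by
          rw [← Real.exp_add]
          congr 1
          ring
      _ ≤ _ := mul_le_mul h1 h2 (Real.exp_pos _).le (le_trans (Real.exp_pos _).le h1)
  have hlow : (2 : ℝ) ^ D / 2 * Real.exp (-(D / 10)) ≤ ∑ x : ι → Bool, w (b x) := by
    calc _ ≤ ((Finset.univ.filter (fun x => Bx x ≤ T)).card : ℝ) * Real.exp (-(D / 10)) :=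
          mul_le_mul_of_nonneg_right hgood (Real.exp_pos _).le
      _ = ∑ x ∈ Finset.univ.filter (fun x => Bx x ≤ T), Real.exp (-(D / 10)) := by
          rw [Finset.sum_const, nsmul_eq_mul]
      _ ≤ ∑ x ∈ Finset.univ.filter (fun x => Bx x ≤ T), w (b x) :=
          Finset.sum_le_sum fun x hx => hwlow x (Finset.mem_filter.1 hx).2
      _ ≤ _ := Finset.sum_le_sum_of_subset_of_nonneg (Finset.filter_subset _ _) fun x _ _ => by
          refine Finset.prod_nonneg fun i _ => ?_
          have : 0 ≤ (1 - γ) / (1 + γ) := div_nonneg (by linarith) (by linarith)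
          positivity
  have hexp : ((9 : ℝ) / 10) ^ D ≤ Real.exp (-(D / 10)) := by
    have e1 : (9 : ℝ) / 10 ≤ Real.exp (-(1 / 10)) := by
      have := Real.add_one_le_exp (-(1 / 10) : ℝ)
      linarith
    calc ((9 : ℝ) / 10) ^ D ≤ (Real.exp (-(1 / 10))) ^ D := pow_le_pow_left₀ (by norm_num) e1 D
      _ = _ := by
        rw [← Real.exp_nat_mul]
        congr 1
        ring
  have h1 : (2 : ℝ) ^ D / 2 * (9 / 10) ^ D ≤ (117 / 80) ^ D := by
    calc _ ≤ (2 : ℝ) ^ D / 2 * Real.exp (-(D / 10)) :=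
          mul_le_mul_of_nonneg_left hexp (by positivity)
      _ ≤ _ := hlow.trans hup
  have h2 : (2 : ℝ) ^ D / 2 * (9 / 10) ^ D = (117 / 80) ^ D * ((16 / 13) ^ D / 2) := by
    have : (2 : ℝ) ^ D * (9 / 10) ^ D = (117 / 80) ^ D * (16 / 13) ^ D := by
      rw [← mul_pow, ← mul_pow]
      norm_num
    linear_combination this / 2
  rw [h2] at h1
  have h3 : (2 : ℝ) < (16 / 13) ^ D := by
    calc (2 : ℝ) < (16 / 13) ^ 4 := by norm_num
      _ ≤ (16 / 13) ^ D := pow_le_pow_right₀ (by norm_num) hD4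
  have h4 : (0 : ℝ) < (117 / 80) ^ D := by positivity
  nlinarith

end part

end Pool.Agent.Lib.MP_506ba8_co.H4
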