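import Pool.Agent.Lib.MP_506ba8_co.H4.Lev

/-!
# The refinement step: roundings of the averages
-/

set_option autoImplicit false

open Finset

set_option linter.unusedSectionVars false
set_option linter.style.longLine false
set_option linter.unusedVariables false

namespace Pool.Agent.Lib.MP_506ba8_co.H4

section step

variable {κ : Type} [Fintype κ] {m r k n : ℕ} {L : κ → Fin m → ℝ} {Z : Set (Fin (r + 1) → ℝ)}
  {D E : ℝ} {α : Type} [Fintype α] (T : Lev m r k L Z D E α)

/-- image under the involution -/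
noncomputable def im (τ : Finset α) : Finset α := by
  classical exact τ.image T.inv

lemma mem_im {τ : Finset α} {v : α} : v ∈ im T τ ↔ T.inv v ∈ τ := by
  classical
  unfold im
  rw [Finset.mem_image]
  constructor
  · rintro ⟨u, hu, rfl⟩
    rwa [T.inv_inv]
  · intro h
    exact ⟨_, h, T.inv_inv v⟩

lemma im_im (τ : Finset α) : im T (im T τ) = τ := by
  ext v
  rw [mem_im, mem_im, T.inv_inv]

lemma inv_inj : Function.Injective T.inv := fun u v h => by
  rw [← T.inv_inv u, h, T.inv_inv]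

lemma card_im (τ : Finset α) : (im T τ).card = τ.card := by
  classical
  unfold im
  exact Finset.card_image_of_injective _ (inv_inj T)

lemma im_mono {σ τ : Finset α} (h : σ ⊆ τ) : im T σ ⊆ im T τ := fun v hv =>
  (mem_im T).2 (h ((mem_im T).1 hv))

lemma im_nonempty {τ : Finset α} (h : τ.Nonempty) : (im T τ).Nonempty := by
  rw [← Finset.card_pos, card_im, Finset.card_pos]
  exact h

lemma im_ssubset {σ τ : Finset α} (h : σ ⊂ im T τ) : im T σ ⊂ τ := by
  refine ⟨?_, fun h1 => h.2 ?_⟩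
  · have := im_mono T h.1
    rwa [im_im] at this
  · have := im_mono T h1
    rwa [im_im] at this

/-- admissible sets -/
def Adm (τ : Finset α) : Prop := τ.Nonempty ∧ ∃ w, ‖w‖ = 1 ∧ τ ⊆ spt T.lam w

lemma adm_sub {σ τ : Finset α} (h : Adm T τ) (hσ : σ.Nonempty) (h1 : σ ⊆ τ) : Adm T σ := by
  obtain ⟨_, w, hw, h2⟩ := h
  exact ⟨hσ, w, hw, h1.trans h2⟩

lemma adm_im {τ : Finset α} (h : Adm T τ) : Adm T (im T τ) := by
  obtain ⟨h0, w, hw, h2⟩ := h
  refine ⟨im_nonempty T h0, -w, by rwa [norm_neg], fun v hv => ?_⟩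
  rw [mem_im] at hv
  have h3 := h2 hv
  rw [mem_spt] at h3 ⊢
  have := T.odd (T.inv v) w hw
  rw [T.inv_inv] at this
  rwa [this]

lemma adm_sgn {τ : Finset α} (h : Adm T τ) : ∀ v ∈ τ, Sgn (T.x v) := by
  obtain ⟨_, w, hw, h2⟩ := h
  intro v hv
  exact T.sgn v w hw (mem_spt.1 (h2 hv))

lemma adm_xinv {τ : Finset α} (h : Adm T τ) : ∀ v ∈ τ, T.x (T.inv v) = - T.x v := by
  obtain ⟨_, w, hw, h2⟩ := h
  intro v hv
  exact T.xinv v w hw (mem_spt.1 (h2 hv))

lemma adm_card {τ : Finset α} (h : Adm T τ) : τ.card ≤ k + 1 := by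
  obtain ⟨_, w, hw, h2⟩ := h
  exact (Finset.card_le_card h2).trans (T.card w hw)

lemma av_im {τ : Finset α} (h : Adm T τ) (j : Fin m) : av T.x (im T τ) j = - av T.x τ j := by
  classical
  unfold av
  rw [card_im]
  have : ∑ v ∈ im T τ, T.x v j = - ∑ v ∈ τ, T.x v j := by
    unfold im
    rw [Finset.sum_image (fun a _ b _ hab => inv_inj T hab), ← Finset.sum_neg_distrib]
    refine Finset.sum_congr rfl fun v hv => ?_
    rw [adm_xinv T h v hv]
    rfl
  rw [this, neg_div]

lemma im_ne (hDm : D < m) {τ : Finset α} (h : Adm T τ) : im T τ ≠ τ := by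
  intro h1
  obtain ⟨⟨v, hv⟩, w, hw, h2⟩ := h
  have h3 : T.inv v ∈ τ := by
    rw [← h1, mem_im, T.inv_inv]
    exact hv
  have h4 : box T.x (spt T.lam w) = Finset.univ := by
    ext j
    simp only [Finset.mem_univ, iff_true]
    rw [mem_box]
    refine ⟨v, h2 hv, T.inv v, h2 h3, ?_⟩
    rw [T.xinv v w hw (mem_spt.1 (h2 hv)), Pi.neg_apply]
    rcases T.sgn v w hw (mem_spt.1 (h2 hv)) j with h5 | h5 <;> rw [h5] <;> norm_num
  have h5 := T.bx w hw
  rw [h4, Finset.card_univ, Fintype.card_fin] at h5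
  linarith

lemma av_abs {τ : Finset α} (h : Adm T τ) {j : Fin m} (hj : j ∉ box T.x τ) :
    |av T.x τ j| = 1 := by
  obtain ⟨v, hv⟩ := h.1
  rw [av_eq h.1 (fun u hu => not_mem_box hj hu hv)]
  rcases adm_sgn T h v hv j with h1 | h1 <;> rw [h1] <;> norm_num

/-- partial construction of the roundings, for the sets with at most `s` elements -/
def PS (tol : ℝ) (X : Finset α → Fin m → ℝ) (s : ℕ) : Prop :=
  ∀ τ, Adm T τ → τ.card ≤ s → Sgn (X τ) ∧ (∀ j, |av T.x τ j| = 1 → X τ j = av T.x τ j) ∧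
    X (im T τ) = - X τ ∧ (∀ i, |∑ j, L i j * (X τ j - av T.x τ j)| ≤ tol) ∧
    ∀ c : Finset (Finset α), c.Nonempty → (∀ ρ ∈ c, ρ.Nonempty ∧ ρ ⊂ τ) →
      |∑ j, sv X c j * (X τ j - av T.x τ j)| ≤ tol

lemma sv_congr {β : Type} {X Y : β → Fin m → ℝ} {c : Finset β} (h : ∀ ρ ∈ c, X ρ = Y ρ) :
    sv X c = sv Y c := by
  classical
  funext j
  unfold sv
  have h1 : (∀ ρ ∈ c, X ρ j = 1) ↔ (∀ ρ ∈ c, Y ρ j = 1) := by
    constructor <;> intro h2 ρ hρ
    · rw [← h ρ hρ]; exact h2 ρ hρ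
    · rw [h ρ hρ]; exact h2 ρ hρ
  have h3 : (∀ ρ ∈ c, X ρ j = -1) ↔ (∀ ρ ∈ c, Y ρ j = -1) := by
    constructor <;> intro h2 ρ hρ
    · rw [← h ρ hρ]; exact h2 ρ hρ
    · rw [h ρ hρ]; exact h2 ρ hρ
  simp only [h1, h3]

lemma sv_image {β : Type} [DecidableEq β] {X : β → Fin m → ℝ} {c : Finset β} (ι : β → β)
    (hc : c.Nonempty)
    (hs : ∀ ρ ∈ c, Sgn (X ρ)) (h : ∀ ρ ∈ c, X (ι ρ) = - X ρ) (j : Fin m) :
    sv X (c.image ι) j = - sv X c j := by
  have hs' : ∀ ρ ∈ c.image ι, Sgn (X ρ) := by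
    intro ρ hρ
    obtain ⟨ρ', hρ', rfl⟩ := Finset.mem_image.1 hρ
    rw [h ρ' hρ']
    intro j
    rcases hs ρ' hρ' j with h1 | h1
    · right; simp [h1]
    · left; simp [h1]
  by_cases hj : j ∈ box X c
  · obtain ⟨u, hu, v, hv, h1⟩ := mem_box.1 hj
    rw [sv_eq_zero hj, sv_eq_zero, neg_zero]
    rw [mem_box]
    refine ⟨ι u, Finset.mem_image_of_mem _ hu, ι v, Finset.mem_image_of_mem _ hv, ?_⟩
    rw [h u hu, h v hv]
    simpa using h1
  · obtain ⟨ρ, hρ⟩ := hc
    have hj' : j ∉ box X (c.image ι) := by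
      intro h1
      obtain ⟨u, hu, v, hv, h2⟩ := mem_box.1 h1
      obtain ⟨u', hu', rfl⟩ := Finset.mem_image.1 hu
      obtain ⟨v', hv', rfl⟩ := Finset.mem_image.1 hv
      apply hj
      rw [mem_box]
      refine ⟨u', hu', v', hv', ?_⟩
      rw [h u' hu', h v' hv'] at h2
      simpa using h2
    rw [sv_eq ⟨ρ, hρ⟩ hs hj hρ, sv_eq ⟨_, Finset.mem_image_of_mem _ hρ⟩ hs' hj'
      (Finset.mem_image_of_mem _ hρ), h ρ hρ]
    rfl

theorem exists_PS (hL : ∀ i j, |L i j| ≤ 1) (hDm : D < m) (hDn : D ≤ n)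
    (hn : Fintype.card κ + 2 ^ (2 ^ (k + 1)) ≤ n) {tol : ℝ} (htol : 400 * qr n D ≤ tol) :
    ∀ s, ∃ X : Finset α → Fin m → ℝ, PS T tol X s := by
  classical
  intro s
  induction s with
  | zero =>
    refine ⟨fun _ _ => 1, fun τ hτ hs => ?_⟩
    have := Finset.card_pos.2 hτ.1
    omega
  | succ s ih =>
    obtain ⟨X, hX⟩ := ih
    have hch := eq_choice (m := m) (im T) (im_im T)
      (fun τ y => Sgn y ∧ (∀ j, |av T.x τ j| = 1 → y j = av T.x τ j) ∧
        (∀ i, |∑ j, L i j * (y j - av T.x τ j)| ≤ tol) ∧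
        ∀ c : Finset (Finset α), c.Nonempty → (∀ ρ ∈ c, ρ.Nonempty ∧ ρ ⊂ τ) →
          |∑ j, sv X c j * (y j - av T.x τ j)| ≤ tol)
      (fun τ => Adm T τ ∧ τ.card = s + 1) ?_ ?_ ?_ ?_
    · obtain ⟨f, hf⟩ := hch
      refine ⟨fun τ => if τ.card = s + 1 then f τ else X τ, fun τ hτ hs => ?_⟩
      have hlow : ∀ c : Finset (Finset α), (∀ ρ ∈ c, ρ.Nonempty ∧ ρ ⊂ τ) →
          sv (fun τ => if τ.card = s + 1 then f τ else X τ) c = sv X c := by
        intro c hc
        apply sv_congr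
        intro ρ hρ
        have h1 := Finset.card_lt_card (hc ρ hρ).2
        exact if_neg (by omega)
      rcases Nat.lt_or_ge τ.card (s + 1) with h | h
      · obtain ⟨h1, h2, h3, h4, h5⟩ := hX τ hτ (by omega)
        have e1 : (if τ.card = s + 1 then f τ else X τ) = X τ := if_neg (by omega)
        have e2 : (if (im T τ).card = s + 1 then f (im T τ) else X (im T τ)) = X (im T τ) :=
          if_neg (by rw [card_im]; omega)
        simp only [e1, e2]
        refine ⟨h1, h2, h3, h4, fun c hc0 hc => ?_⟩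
        rw [hlow c hc]
        exact h5 c hc0 hc
      · have hs' : τ.card = s + 1 := by omega
        obtain ⟨⟨h1, h2, h4, h5⟩, h3⟩ := hf τ ⟨hτ, hs'⟩
        have e1 : (if τ.card = s + 1 then f τ else X τ) = f τ := if_pos hs'
        have e2 : (if (im T τ).card = s + 1 then f (im T τ) else X (im T τ)) = f (im T τ) :=
          if_pos (by rw [card_im]; exact hs')
        simp only [e1, e2]
        refine ⟨h1, h2, h3, h4, fun c hc0 hc => ?_⟩
        rw [hlow c hc]
        exact h5 c hc0 hc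
    · rintro τ ⟨h1, h2⟩
      exact ⟨adm_im T h1, by rw [card_im]; exact h2⟩
    · rintro τ y ⟨hτ, hs⟩ ⟨h1, h2, h4, h5⟩
      refine ⟨fun j => ?_, fun j hj => ?_, fun i => ?_, fun c hc0 hc => ?_⟩
      · rcases h1 j with h | h
        · right; simp [h]
        · left; simp [h]
      · rw [av_im T hτ, abs_neg] at hj
        rw [av_im T hτ, Pi.neg_apply, h2 j hj]
      · have := h4 i
        rw [← abs_neg, ← Finset.sum_neg_distrib] at this
        refine le_trans (le_of_eq ?_) this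
        congr 1
        refine Finset.sum_congr rfl fun j _ => ?_
        rw [av_im T hτ, Pi.neg_apply]
        ring
      · have hcs : ∀ ρ ∈ c.image (im T), ρ.Nonempty ∧ ρ ⊂ τ := by
          intro ρ hρ
          obtain ⟨ρ', hρ', rfl⟩ := Finset.mem_image.1 hρ
          exact ⟨im_nonempty T (hc ρ' hρ').1, im_ssubset T (hc ρ' hρ').2⟩
        have hadm : ∀ ρ ∈ c.image (im T), Adm T ρ ∧ ρ.card ≤ s := by
          intro ρ hρ
          refine ⟨adm_sub T hτ (hcs ρ hρ).1 (hcs ρ hρ).2.1, ?_⟩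
          have := Finset.card_lt_card (hcs ρ hρ).2
          omega
        have e1 : ∀ j, sv X c j = - sv X (c.image (im T)) j := by
          intro j
          have h6 : (c.image (im T)).image (im T) = c := by
            rw [Finset.image_image]
            have : (im T ∘ im T) = id := by
              funext ρ
              exact im_im T ρ
            rw [this, Finset.image_id]
          have h7 := sv_image (X := X) (im T) (hc0.image (im T))
            (fun ρ hρ => (hX ρ (hadm ρ hρ).1 (hadm ρ hρ).2).1)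
            (fun ρ hρ => (hX ρ (hadm ρ hρ).1 (hadm ρ hρ).2).2.2.1) j
          rw [h6] at h7
          exact h7
        have := h5 (c.image (im T)) (hc0.image (im T)) hcs
        refine le_trans (le_of_eq ?_) this
        congr 1
        refine Finset.sum_congr rfl fun j _ => ?_
        rw [av_im T hτ, Pi.neg_apply, e1]
        ring
    · rintro τ ⟨hτ, _⟩
      exact im_ne T hDm hτ
    · rintro τ ⟨hτ, hs⟩
      obtain ⟨_, w, hw, hτw⟩ := id hτ
      have hcard := adm_card T hτ
      have hfr : (Finset.univ.filter (fun j => |av T.x τ j| < 1)) ⊆ box T.x (spt T.lam w) := by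
        intro j hj
        rw [Finset.mem_filter] at hj
        by_contra h
        have h1 : j ∉ box T.x τ := fun h2 => h (box_mono hτw h2)
        rw [av_abs T hτ h1] at hj
        exact lt_irrefl _ hj.2
      have hD0 : ((Finset.univ.filter (fun j => |av T.x τ j| < 1)).card : ℝ) ≤ D :=
        le_trans (by exact_mod_cast Finset.card_le_card hfr) (T.bx w hw)
      obtain ⟨y, hy1, hy2, hy3⟩ := rounding (n := n)
        (κ := κ ⊕ {c : Finset (Finset α) // c ∈ τ.powerset.powerset})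
        (Sum.elim L (fun c => sv X c.1)) (by
          rintro (i | c) j
          · exact hL i j
          · exact abs_sv_le X c.1 j) (by
          rw [Fintype.card_sum, Fintype.card_coe, Finset.card_powerset, Finset.card_powerset]
          have : 2 ^ (2 ^ τ.card) ≤ 2 ^ (2 ^ (k + 1)) :=
            Nat.pow_le_pow_right (by norm_num) (Nat.pow_le_pow_right (by norm_num) hcard)
          omega) _ (av T.x τ) (fun j => abs_av_le hτ.1 (adm_sgn T hτ)) rfl
        (by exact_mod_cast hD0.trans hDn)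
      have hq : 400 * qr n ((Finset.univ.filter (fun j => |av T.x τ j| < 1)).card : ℕ) ≤ tol := by
        have := qr_mono (Nat.cast_nonneg n) hD0
        linarith
      refine ⟨y, hy1, hy2, fun i => ?_, fun c hc0 hc => ?_⟩
      · exact (hy3 (Sum.inl i)).trans hq
      · have hmem : c ∈ τ.powerset.powerset := by
          rw [Finset.mem_powerset]
          intro ρ hρ
          rw [Finset.mem_powerset]
          exact (hc ρ hρ).2.1
        exact (hy3 (Sum.inr ⟨c, hmem⟩)).trans hq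

/-- Contraction of the box of a chain. -/
theorem contract {tol : ℝ} (htol : 0 ≤ tol) {X : Finset α → Fin m → ℝ}
    (hX : ∀ s, PS T tol X s) {w : Fin (r + 1) → ℝ} (hw : ‖w‖ = 1) :
    ∀ (l : ℕ) (c : Finset (Finset α)), c.card = l + 1 →
      (∀ ρ ∈ c, ρ.Nonempty ∧ ρ ⊆ spt T.lam w) → (∀ ρ ∈ c, ∀ ρ' ∈ c, ρ ⊆ ρ' ∨ ρ' ⊆ ρ) →
      ((box X c).card : ℝ) ≤ (1 - (1 / ((k : ℝ) + 1)) ^ l) * (box T.x (spt T.lam w)).card +
        l * tol := by
  classical
  set q : ℝ := 1 / ((k : ℝ) + 1) with hq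
  set B : ℝ := ((box T.x (spt T.lam w)).card : ℝ) with hB
  have hk : (0 : ℝ) < (k : ℝ) + 1 := by positivity
  have hq0 : 0 < q := by positivity
  have hq1 : q ≤ 1 := by
    rw [hq, div_le_one hk]
    have : (0 : ℝ) ≤ k := Nat.cast_nonneg k
    linarith
  intro l
  induction l with
  | zero =>
    intro c hc _ _
    obtain ⟨ρ, rfl⟩ := Finset.card_eq_one.1 hc
    have : box X {ρ} = ∅ := by
      ext j
      rw [mem_box]
      simp
    rw [this]
    simp
  | succ l ih =>
    intro c hc hne hch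
    have hadm : ∀ ρ ∈ c, Adm T ρ := fun ρ hρ => ⟨(hne ρ hρ).1, w, hw, (hne ρ hρ).2⟩
    obtain ⟨τ, hτ, hmax⟩ := Finset.exists_max_image c Finset.card
      (Finset.card_pos.1 (by omega))
    set c' := c.erase τ with hc'
    have hc'card : c'.card = l + 1 := by
      rw [hc', Finset.card_erase_of_mem hτ, hc]
      omega
    have hsub : ∀ ρ ∈ c', ρ ⊂ τ := by
      intro ρ hρ
      have h1 := Finset.mem_of_mem_erase hρ
      have h2 := Finset.ne_of_mem_erase hρ
      rcases hch ρ h1 τ hτ with h | h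
      · exact Finset.ssubset_iff_subset_ne.2 ⟨h, h2⟩
      · exact absurd (Finset.eq_of_subset_of_card_le h (hmax ρ h1)).symm h2
    have hc'0 : c'.Nonempty := Finset.card_pos.1 (by omega)
    have hin : ∀ ρ ∈ c', ρ ∈ c := fun ρ hρ => Finset.mem_of_mem_erase hρ
    have hsg : ∀ ρ ∈ c, Sgn (X ρ) := fun ρ hρ => (hX ρ.card ρ (hadm ρ hρ) le_rfl).1
    have hout : ∀ ρ ∈ c, ∀ j, j ∉ box T.x (spt T.lam w) → ∀ v ∈ spt T.lam w,
        X ρ j = T.x v j ∧ av T.x ρ j = T.x v j := by
      intro ρ hρ j hj v hv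
      have e1 : av T.x ρ j = T.x v j :=
        av_eq (hne ρ hρ).1 (fun u hu => not_mem_box hj ((hne ρ hρ).2 hu) hv)
      refine ⟨?_, e1⟩
      rw [(hX ρ.card ρ (hadm ρ hρ) le_rfl).2.1 j, e1]
      rw [e1]
      rcases T.sgn v w hw (mem_spt.1 hv) j with h | h <;> rw [h] <;> norm_num
    obtain ⟨v0, hv0⟩ : (spt T.lam w).Nonempty := by
      obtain ⟨v, hv⟩ := (hne τ hτ).1
      exact ⟨v, (hne τ hτ).2 hv⟩
    have hbsub : box X c' ⊆ box T.x (spt T.lam w) := by
      intro j hj
      by_contra h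
      obtain ⟨u, hu, v, hv, h1⟩ := mem_box.1 hj
      apply h1
      rw [(hout u (hin u hu) j h v0 hv0).1, (hout v (hin v hv) j h v0 hv0).1]
    set A := box T.x (spt T.lam w) \ box X c' with hA
    have hAcard : (A.card : ℝ) = B - (box X c').card := by
      rw [hA, Finset.card_sdiff_of_subset hbsub, Nat.cast_sub (Finset.card_le_card hbsub)]
    have hcov : box X c ⊆ box X c' ∪ A.filter (fun j => X τ j ≠ sv X c' j) := by
      intro j hj
      rw [Finset.mem_union]
      by_cases h : j ∈ box X c'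
      · exact Or.inl h
      right
      obtain ⟨u, hu, v, hv, h1⟩ := mem_box.1 hj
      have h2 : ∃ ρ ∈ c', X τ j ≠ X ρ j := by
        by_cases hu' : u = τ
        · refine ⟨v, Finset.mem_erase.2 ⟨?_, hv⟩, ?_⟩
          · rintro rfl
            exact h1 (by rw [hu'])
          · rw [← hu']; exact h1
        · by_cases hv' : v = τ
          · refine ⟨u, Finset.mem_erase.2 ⟨hu', hu⟩, ?_⟩
            rw [← hv']
            exact h1.symm
          · exact absurd (mem_box.2 ⟨u, Finset.mem_erase.2 ⟨hu', hu⟩, v,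
              Finset.mem_erase.2 ⟨hv', hv⟩, h1⟩) h
      obtain ⟨ρ, hρ, h3⟩ := h2
      rw [Finset.mem_filter, hA, Finset.mem_sdiff]
      refine ⟨⟨?_, h⟩, ?_⟩
      · by_contra h4
        exact h3 (by rw [(hout τ hτ j h4 v0 hv0).1, (hout ρ (hin ρ hρ) j h4 v0 hv0).1])
      · rw [sv_eq hc'0 (fun ρ hρ => hsg ρ (hin ρ hρ)) h hρ]
        exact h3
    obtain ⟨hs1, hs2, _, _, hs5⟩ := hX τ.card τ (hadm τ hτ) le_rfl
    have hfun := hs5 c' hc'0 (fun ρ hρ => ⟨(hne ρ (hin ρ hρ)).1, hsub ρ hρ⟩)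
    have hsumA : ∑ j, sv X c' j * (X τ j - av T.x τ j) =
        ∑ j ∈ A, sv X c' j * (X τ j - av T.x τ j) := by
      symm
      apply Finset.sum_subset (Finset.subset_univ _)
      intro j _ hj
      rw [hA, Finset.mem_sdiff, not_and_or, not_not] at hj
      rcases hj with hj | hj
      · rw [(hout τ hτ j hj v0 hv0).1, (hout τ hτ j hj v0 hv0).2]
        ring
      · rw [sv_eq_zero hj, zero_mul]
    rw [hsumA] at hfun
    -- the sign in `A`
    have hsA : ∀ j ∈ A, ∃ ρ ∈ c', sv X c' j = X ρ j := by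
      intro j hj
      rw [hA, Finset.mem_sdiff] at hj
      obtain ⟨ρ, hρ⟩ := hc'0
      exact ⟨ρ, hρ, sv_eq ⟨ρ, hρ⟩ (fun ρ hρ => hsg ρ (hin ρ hρ)) hj.2 hρ⟩
    have hcnt : ((A.filter (fun j => X τ j ≠ sv X c' j)).card : ℝ) =
        ∑ j ∈ A, (1 - sv X c' j * X τ j) / 2 := by
      rw [Finset.card_filter]
      push_cast
      refine Finset.sum_congr rfl fun j hj => ?_
      obtain ⟨ρ, hρ, h1⟩ := hsA j hj
      rw [h1]
      rcases hsg ρ (hin ρ hρ) j with h2 | h2 <;> rcases hs1 j with h3 | h3 <;> rw [h2, h3] <;>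
        norm_num
    have hav : ∀ j ∈ A, (1 - sv X c' j * av T.x τ j) / 2 ≤ 1 - q := by
      intro j hj
      obtain ⟨ρ, hρ, h1⟩ := hsA j hj
      -- some member of `ρ` has the sign `X ρ j`
      have h2 : ∃ v ∈ ρ, T.x v j = X ρ j := by
        by_contra h
        push Not at h
        have h3 : ∀ v ∈ ρ, T.x v j = - X ρ j := by
          intro v hv
          have h4 := h v hv
          rcases adm_sgn T (hadm ρ (hin ρ hρ)) v hv j with h5 | h5 <;>
            rcases hsg ρ (hin ρ hρ) j with h6 | h6 <;> rw [h5, h6] at h4 ⊢ <;>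
            first | exact absurd rfl h4 | norm_num
        have h4 : av T.x ρ j = - X ρ j := av_eq (hne ρ (hin ρ hρ)).1 h3
        have h5 := (hX ρ.card ρ (hadm ρ (hin ρ hρ)) le_rfl).2.1 j (by
          rw [h4, abs_neg]
          rcases hsg ρ (hin ρ hρ) j with h6 | h6 <;> rw [h6] <;> norm_num)
        rw [h4] at h5
        rcases hsg ρ (hin ρ hρ) j with h6 | h6 <;> rw [h6] at h5 <;> norm_num at h5
      obtain ⟨v, hv, h3⟩ := h2
      have h4 := av_lower (hsg ρ (hin ρ hρ) j) (adm_sgn T (hadm τ hτ)) ((hsub ρ hρ).1 hv) h3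
      rw [h1]
      refine h4.trans ?_
      have h5 : (τ.card : ℝ) ≤ (k : ℝ) + 1 := by exact_mod_cast adm_card T (hadm τ hτ)
      have h6 : (0 : ℝ) < τ.card := by exact_mod_cast Finset.card_pos.2 (hne τ hτ).1
      have h7 := one_div_le_one_div_of_le h6 h5
      rw [hq]
      linarith
    have hle : ((A.filter (fun j => X τ j ≠ sv X c' j)).card : ℝ) ≤
        A.card * (1 - q) + tol / 2 := by
      rw [hcnt]
      have h1 : ∑ j ∈ A, (1 - sv X c' j * X τ j) / 2 =
          ∑ j ∈ A, (1 - sv X c' j * av T.x τ j) / 2 -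
            (∑ j ∈ A, sv X c' j * (X τ j - av T.x τ j)) / 2 := by
        rw [Finset.sum_div, ← Finset.sum_sub_distrib]
        refine Finset.sum_congr rfl fun j _ => ?_
        ring
      have h2 : ∑ j ∈ A, (1 - sv X c' j * av T.x τ j) / 2 ≤ ∑ _j ∈ A, (1 - q) :=
        Finset.sum_le_sum hav
      rw [Finset.sum_const, nsmul_eq_mul] at h2
      rw [h1]
      have h3 := (abs_le.1 hfun).1
      linarith
    have hih := ih c' hc'card (fun ρ hρ => hne ρ (hin ρ hρ))
      (fun ρ hρ ρ' hρ' => hch ρ (hin ρ hρ) ρ' (hin ρ' hρ'))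
    have htot : ((box X c).card : ℝ) ≤ (box X c').card +
        ((A.filter (fun j => X τ j ≠ sv X c' j)).card : ℝ) := by
      exact_mod_cast (Finset.card_le_card hcov).trans (Finset.card_union_le _ _)
    rw [hAcard] at hle
    set b' : ℝ := ((box X c').card : ℝ) with hb'
    have h1 : ((box X c).card : ℝ) ≤ (1 - q) * B + q * b' + tol / 2 := by linarith
    have h2 : q * b' ≤ q * ((1 - q ^ l) * B + l * tol) := mul_le_mul_of_nonneg_left hih hq0.le
    have h3 : q * (l * tol) ≤ l * tol := by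
      have : 0 ≤ (l : ℝ) * tol := by positivity
      nlinarith
    have h4 : (1 - q) * B + q * ((1 - q ^ l) * B + l * tol) + tol / 2 ≤
        (1 - q ^ (l + 1)) * B + ((l + 1 : ℕ) : ℝ) * tol := by
      push_cast
      rw [pow_succ]
      nlinarith
    linarith

end step

end Pool.Agent.Lib.MP_506ba8_co.H4
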